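import Pool.Agent.Helper27.UC.Goals6

/-!
PROJECT UC: packet REGN, the regular side for nearly equal multiplicities (helper97).
-/

set_option autoImplicit false

noncomputable section

namespace Pool.Agent.Helper97.UC.REGN

open Module Pool.Agent.Helper27.UC

/-- RGG for three families of rows -/
theorem three (hR : S_RGG) (d k M : ℕ) (r0 r1 r2 : ℕ) (T0 T1 T2 : Multiset (ℕ × ℕ))
    (a0 a1 a2 N0 N1 N2 : ℕ → ℕ) (hr : 1 ≤ r0)
    (h0 : ∀ p ∈ T0, p.1 < r0 ∧ p.2 + 1 ≤ a0 p.1) (h1 : ∀ p ∈ T1, p.1 < r1 ∧ p.2 + 1 ≤ a1 p.1)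
    (h2 : ∀ p ∈ T2, p.1 < r2 ∧ p.2 + 1 ≤ a2 p.1)
    (c0 : ∀ l < r0, Multiset.card (T0.filter (fun p => p.1 = l)) = N0 l)
    (c1 : ∀ l < r1, Multiset.card (T1.filter (fun p => p.1 = l)) = N1 l)
    (c2 : ∀ l < r2, Multiset.card (T2.filter (fun p => p.1 = l)) = N2 l)
    (hk : 3 ≤ k) (hrr : 2 * (r0 + r1 + r2) ≤ (k - 1) * (k - 2))
    (e0 : ∀ l < r0, 0 < a0 l ∧ 1 ≤ N0 l ∧ k * a0 l < d + 3 ∧ d + 3 ≤ k * (N0 l * a0 l))
    (e1 : ∀ l < r1, 0 < a1 l ∧ 1 ≤ N1 l ∧ k * a1 l < d + 3 ∧ d + 3 ≤ k * (N1 l * a1 l))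
    (e2 : ∀ l < r2, 0 < a2 l ∧ 1 ≤ N2 l ∧ k * a2 l < d + 3 ∧ d + 3 ≤ k * (N2 l * a2 l))
    (hs : ∑ l ∈ Finset.range r0, N0 l * a0 l ^ 2 + (∑ l ∈ Finset.range r1, N1 l * a1 l ^ 2 +
      ∑ l ∈ Finset.range r2, N2 l * a2 l ^ 2) < (d + 3) ^ 2)
    (hM : (d + 2).choose 2 ≤ M + (((T0.map Prod.snd).map fun x => (x + 1).choose 2).sum +
      (((T1.map Prod.snd).map fun x => (x + 1).choose 2).sum +
        ((T2.map Prod.snd).map fun x => (x + 1).choose 2).sum))) :
    gd d (T0.map Prod.snd + (T1.map Prod.snd + T2.map Prod.snd)) ≤ M := by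
  classical
  set f0 : ℕ × ℕ → (ℕ ⊕ (ℕ ⊕ ℕ)) × ℕ := fun p => (Sum.inl p.1, p.2) with hf0
  set f1 : ℕ × ℕ → (ℕ ⊕ (ℕ ⊕ ℕ)) × ℕ := fun p => (Sum.inr (Sum.inl p.1), p.2) with hf1
  set f2 : ℕ × ℕ → (ℕ ⊕ (ℕ ⊕ ℕ)) × ℕ := fun p => (Sum.inr (Sum.inr p.1), p.2) with hf2
  set T : Multiset ((ℕ ⊕ (ℕ ⊕ ℕ)) × ℕ) := T0.map f0 + (T1.map f1 + T2.map f2) with hT
  have key := hR (ℕ ⊕ (ℕ ⊕ ℕ)) d k M
    ((Finset.range r0).disjSum ((Finset.range r1).disjSum (Finset.range r2)))
    (Sum.elim a0 (Sum.elim a1 a2)) (Sum.elim N0 (Sum.elim N1 N2)) T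
    ⟨Sum.inl 0, by simp; omega⟩ ?_ ?_ hk ?_ ?_ ?_ ?_
  · have : T.map Prod.snd = T0.map Prod.snd + (T1.map Prod.snd + T2.map Prod.snd) := by
      rw [hT, Multiset.map_add, Multiset.map_add, Multiset.map_map, Multiset.map_map,
        Multiset.map_map]
      rfl
    rwa [this] at key
  · intro p hp
    rw [hT, Multiset.mem_add, Multiset.mem_add, Multiset.mem_map, Multiset.mem_map,
      Multiset.mem_map] at hp
    rcases hp with ⟨x, hx, rfl⟩ | ⟨x, hx, rfl⟩ | ⟨x, hx, rfl⟩
    · have := h0 x hx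
      simp [hf0, this]
    · have := h1 x hx
      simp [hf1, this]
    · have := h2 x hx
      simp [hf2, this]
  · intro i hi
    rw [hT, Multiset.filter_add, Multiset.filter_add, Multiset.card_add, Multiset.card_add,
      Multiset.filter_map, Multiset.filter_map, Multiset.filter_map, Multiset.card_map,
      Multiset.card_map, Multiset.card_map]
    rcases i with l | l | l
    · have hl : l < r0 := by simpa using hi
      have e1 : Multiset.filter ((fun p : (ℕ ⊕ (ℕ ⊕ ℕ)) × ℕ => p.1 = Sum.inl l) ∘ f0) T0 =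
          Multiset.filter (fun p => p.1 = l) T0 := by
        apply Multiset.filter_congr
        intro x _
        simp [hf0]
      have e2 : Multiset.filter ((fun p : (ℕ ⊕ (ℕ ⊕ ℕ)) × ℕ => p.1 = Sum.inl l) ∘ f1) T1 = 0 := by
        rw [Multiset.filter_eq_nil]
        intro x _
        simp [hf1]
      have e3 : Multiset.filter ((fun p : (ℕ ⊕ (ℕ ⊕ ℕ)) × ℕ => p.1 = Sum.inl l) ∘ f2) T2 = 0 := by
        rw [Multiset.filter_eq_nil]
        intro x _
        simp [hf2]
      rw [e1, e2, e3, c0 l hl]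
      simp
    · have hl : l < r1 := by simpa using hi
      have e1 : Multiset.filter ((fun p : (ℕ ⊕ (ℕ ⊕ ℕ)) × ℕ => p.1 = Sum.inr (Sum.inl l)) ∘ f1) T1 =
          Multiset.filter (fun p => p.1 = l) T1 := by
        apply Multiset.filter_congr
        intro x _
        simp [hf1]
      have e2 : Multiset.filter ((fun p : (ℕ ⊕ (ℕ ⊕ ℕ)) × ℕ => p.1 = Sum.inr (Sum.inl l)) ∘ f0) T0 = 0 := by
        rw [Multiset.filter_eq_nil]
        intro x _
        simp [hf0]
      have e3 : Multiset.filter ((fun p : (ℕ ⊕ (ℕ ⊕ ℕ)) × ℕ => p.1 = Sum.inr (Sum.inl l)) ∘ f2) T2 = 0 := by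
        rw [Multiset.filter_eq_nil]
        intro x _
        simp [hf2]
      rw [e1, e2, e3, c1 l hl]
      simp
    · have hl : l < r2 := by simpa using hi
      have e1 : Multiset.filter ((fun p : (ℕ ⊕ (ℕ ⊕ ℕ)) × ℕ => p.1 = Sum.inr (Sum.inr l)) ∘ f2) T2 =
          Multiset.filter (fun p => p.1 = l) T2 := by
        apply Multiset.filter_congr
        intro x _
        simp [hf2]
      have e2 : Multiset.filter ((fun p : (ℕ ⊕ (ℕ ⊕ ℕ)) × ℕ => p.1 = Sum.inr (Sum.inr l)) ∘ f0) T0 = 0 := by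
        rw [Multiset.filter_eq_nil]
        intro x _
        simp [hf0]
      have e3 : Multiset.filter ((fun p : (ℕ ⊕ (ℕ ⊕ ℕ)) × ℕ => p.1 = Sum.inr (Sum.inr l)) ∘ f1) T1 = 0 := by
        rw [Multiset.filter_eq_nil]
        intro x _
        simp [hf1]
      rw [e1, e2, e3, c2 l hl]
      simp
  · rw [Finset.card_disjSum, Finset.card_disjSum, Finset.card_range, Finset.card_range,
      Finset.card_range]
    have : r0 + (r1 + r2) = r0 + r1 + r2 := by ring
    rw [this]
    exact hrr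
  · intro i hi
    rcases i with l | l | l
    · exact e0 l (by simpa using hi)
    · exact e1 l (by simpa using hi)
    · exact e2 l (by simpa using hi)
  · rw [Finset.sum_disjSum, Finset.sum_disjSum]
    exact hs
  · have : (T.map fun p => (p.2 + 1).choose 2).sum =
        ((T0.map Prod.snd).map fun x => (x + 1).choose 2).sum +
      (((T1.map Prod.snd).map fun x => (x + 1).choose 2).sum +
        ((T2.map Prod.snd).map fun x => (x + 1).choose 2).sum) := by
      rw [hT, Multiset.map_add, Multiset.map_add, Multiset.sum_add, Multiset.sum_add,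
        Multiset.map_map, Multiset.map_map, Multiset.map_map, Multiset.map_map, Multiset.map_map,
        Multiset.map_map]
      rfl
    rw [this]
    exact hM

/-- arithmetic -/
theorem ari (n m b d Q M : ℕ) (hn : 10 ^ 10 ≤ n) (hb : 10000 * b ≤ n) (hm : n ^ 5 ≤ m)
    (hQ1 : (n : ℝ) * ((m : ℝ) - b) ^ 2 ≤ Q) (hQ2 : Q ≤ n * m ^ 2) (hM2 : M ≤ n * m)
    (hd1 : d * (d + 1) < Q + M) (hd2 : Q + M ≤ (d + 2) * (d + 3)) :
    3 ≤ Nat.sqrt n / 10 ∧ Nat.sqrt n / 10 * (4 * m + 1) < d + 3 ∧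
    (∀ N a : ℕ, 20 ≤ N → m + 1 ≤ a + b → d + 3 ≤ Nat.sqrt n / 10 * (N * a)) ∧
    (∀ r ch c1 c0 : ℕ, 20 * r ≤ ch + c1 + c0 → 16 * ch ≤ n → 25 * c1 ^ 2 ≤ n → 25 * c0 ^ 2 ≤ n →
      2 * r ≤ (Nat.sqrt n / 10 - 1) * (Nat.sqrt n / 10 - 2)) ∧
    (n : ℝ) * 10 ^ 10 ≤ m ∧ Real.sqrt n * 10 ^ 5 ≤ n ∧ Q + M < (d + 3) ^ 2 := by
  set k : ℕ := Nat.sqrt n / 10 with hk
  set S : ℝ := Real.sqrt n with hS
  have hn' : (10 : ℝ) ^ 10 ≤ n := by exact_mod_cast hn
  have hSS : S * S = n := Real.mul_self_sqrt (by positivity)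
  have hS5 : (10 : ℝ) ^ 5 ≤ S := by
    rw [hS]
    apply Real.le_sqrt_of_sq_le
    nlinarith
  have hS0 : 0 < S := by linarith [show (0 : ℝ) < 10 ^ 5 by norm_num]
  have hsn1 : ((Nat.sqrt n : ℕ) : ℝ) ≤ S := by
    rw [hS]
    exact Real.nat_sqrt_le_real_sqrt
  have hsn2 : S < (Nat.sqrt n : ℕ) + 1 := by
    rw [hS]
    exact Real.real_sqrt_lt_nat_sqrt_succ
  have hk1 : 10 * k ≤ Nat.sqrt n := by omega
  have hk2 : Nat.sqrt n ≤ 10 * k + 9 := by omega
  have hk1' : (10 : ℝ) * k ≤ (Nat.sqrt n : ℕ) := by exact_mod_cast hk1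
  have hk2' : ((Nat.sqrt n : ℕ) : ℝ) ≤ 10 * k + 9 := by exact_mod_cast hk2
  have hkS : 10 * (k : ℝ) ≤ S := hk1'.trans hsn1
  have hkS' : S - 10 ≤ 10 * (k : ℝ) := by linarith
  have hk3 : (3 : ℝ) ≤ k := by
    have : (10 : ℝ) ^ 5 = 100000 := by norm_num
    linarith
  have hk3' : 3 ≤ k := by exact_mod_cast hk3
  have hb' : 10000 * (b : ℝ) ≤ n := by exact_mod_cast hb
  have hm' : (n : ℝ) ^ 5 ≤ m := by exact_mod_cast hm
  have hnm : (n : ℝ) * 10 ^ 10 ≤ m := by
    refine le_trans ?_ hm'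
    have h1 : (10 : ℝ) ^ 10 ≤ (n : ℝ) ^ 4 := by
      calc (10 : ℝ) ^ 10 ≤ n := hn'
        _ = (n : ℝ) ^ 1 := (pow_one _).symm
        _ ≤ (n : ℝ) ^ 4 := pow_le_pow_right₀ (by linarith [show (1 : ℝ) ≤ 10 ^ 10 by norm_num])
            (by norm_num)
    calc (n : ℝ) * 10 ^ 10 ≤ n * (n : ℝ) ^ 4 := mul_le_mul_of_nonneg_left h1 (by positivity)
      _ = (n : ℝ) ^ 5 := by ring
  have h1010 : (10 : ℝ) ^ 10 = 10000000000 := by norm_num
  have h105 : (10 : ℝ) ^ 5 = 100000 := by norm_num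
  rw [h1010] at hn' hnm
  rw [h105] at hS5
  have hm0 : (10000000000 : ℝ) ≤ m := by nlinarith
  have hbm : 1000 * (b : ℝ) ≤ m := by nlinarith
  have hSn : S * 100000 ≤ n := by nlinarith
  have hQ2' : (Q : ℝ) ≤ n * (m : ℝ) ^ 2 := by exact_mod_cast hQ2
  have hM2' : (M : ℝ) ≤ n * (m : ℝ) := by exact_mod_cast hM2
  have hM0 : (0 : ℝ) ≤ M := by positivity
  have hd1' : (d : ℝ) * (d + 1) < Q + M := by exact_mod_cast hd1
  have hd2' : (Q : ℝ) + M ≤ (d + 2) * (d + 3) := by exact_mod_cast hd2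
  have hd0 : (0 : ℝ) ≤ d := by positivity
  -- lower bound of d
  have hlow : S * (m - b) ≤ d + 3 := by
    have h1 : (S * (m - b)) ^ 2 ≤ ((d : ℝ) + 3) ^ 2 := by
      calc (S * (m - b)) ^ 2 = (S * S) * ((m : ℝ) - b) ^ 2 := by ring
        _ = n * ((m : ℝ) - b) ^ 2 := by rw [hSS]
        _ ≤ Q := hQ1
        _ ≤ ((d : ℝ) + 3) ^ 2 := by nlinarith
    have := Real.sqrt_le_sqrt h1
    rw [Real.sqrt_sq (mul_nonneg hS0.le (by linarith)), Real.sqrt_sq (by linarith)] at this
    exact this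
  -- upper bound of d
  have hup : (d : ℝ) ≤ S * m + S := by
    by_contra hcon
    push Not at hcon
    have h1 : (S * m + S) ^ 2 < (d : ℝ) ^ 2 := by
      have h0 : 0 ≤ S * m + S := by positivity
      nlinarith
    have h2 : (S * m + S) ^ 2 = (S * S) * ((m : ℝ) ^ 2 + 2 * m + 1) := by ring
    rw [h2, hSS] at h1
    nlinarith
  have hkey : S * (m : ℝ) * (999 / 1000) ≤ S * (m - b) := by nlinarith
  refine ⟨hk3', ?_, ?_, ?_, ?_, ?_, ?_⟩
  · have h1 : (k : ℝ) * (4 * m + 1) < d + 3 := by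
      have h2 : (k : ℝ) * (4 * m + 1) ≤ S / 10 * (4 * m + 1) := by
        apply mul_le_mul_of_nonneg_right _ (by positivity)
        linarith
      nlinarith
    exact_mod_cast h1
  · intro N a hN ha
    have hN' : (20 : ℝ) ≤ N := by exact_mod_cast hN
    have ha' : (m : ℝ) + 1 ≤ a + b := by exact_mod_cast ha
    have ha2 : (m : ℝ) * (999 / 1000) ≤ a := by linarith
    have h1 : (d : ℝ) + 3 ≤ k * (N * a) := by
      have h2 : 20 * ((m : ℝ) * (999 / 1000)) ≤ N * a :=
        mul_le_mul hN' ha2 (by positivity) (by positivity)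
      have h3 : S * (9 / 100) ≤ k := by linarith
      have h4 : S * (9 / 100) * (20 * ((m : ℝ) * (999 / 1000))) ≤ k * (N * a) :=
        mul_le_mul h3 h2 (by positivity) (by positivity)
      have h5 : S * (9 / 100) * (20 * ((m : ℝ) * (999 / 1000))) = S * m * (1.7982) := by ring
      rw [h5] at h4
      have h6 : S ≤ S * m * (1 / 100) := by nlinarith
      have h7 : (3 : ℝ) ≤ S := by linarith
      nlinarith
    exact_mod_cast h1
  · intro r ch c1 c0 h1 h2 h3 h4
    have h1' : (20 : ℝ) * r ≤ ch + c1 + c0 := by exact_mod_cast h1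
    have h2' : (16 : ℝ) * ch ≤ n := by exact_mod_cast h2
    have h3' : (25 : ℝ) * c1 ^ 2 ≤ n := by exact_mod_cast h3
    have h4' : (25 : ℝ) * c0 ^ 2 ≤ n := by exact_mod_cast h4
    have h5 : 5 * (c1 : ℝ) ≤ S := by
      rw [hS]
      apply Real.le_sqrt_of_sq_le
      nlinarith
    have h6 : 5 * (c0 : ℝ) ≤ S := by
      rw [hS]
      apply Real.le_sqrt_of_sq_le
      nlinarith
    have h7 : (2 : ℝ) * r ≤ ((k : ℝ) - 1) * (k - 2) := by
      have h8 : (S / 10 - 2) * (S / 10 - 3) ≤ ((k : ℝ) - 1) * (k - 2) :=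
        mul_le_mul (by linarith) (by linarith) (by linarith) (by linarith)
      have h9 : (S / 10 - 2) * (S / 10 - 3) = S * S / 100 - S / 2 + 6 := by ring
      rw [h9, hSS] at h8
      linarith
    have h10 : ((2 * r : ℕ) : ℝ) ≤ (((k - 1) * (k - 2) : ℕ) : ℝ) := by
      rw [Nat.cast_mul, Nat.cast_mul, Nat.cast_sub (by omega), Nat.cast_sub (by omega)]
      push_cast
      exact h7
    exact_mod_cast h10
  · rw [h1010]; exact hnm
  · rw [h105]; exact hSn
  · nlinarith

theorem ch1 (v : ℕ) : (2 * (2 * v) + 1).choose 2 + 6 * v = 16 * (v + 1).choose 2 := by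
  have h1 := Nat.choose_two_right (2 * (2 * v) + 1)
  have h2 := Nat.choose_two_right (v + 1)
  have h3 : (2 * (2 * v) + 1) * (2 * (2 * v) + 1 - 1) = 2 * (8 * v ^ 2 + 2 * v) := by
    rw [Nat.add_sub_cancel]; ring
  rw [h3, Nat.mul_div_cancel_left _ (by norm_num)] at h1
  rw [Nat.add_sub_cancel] at h2
  have h4 : 2 ∣ (v + 1) * v := by
    rw [mul_comm]; exact (Nat.even_mul_succ_self v).two_dvd
  obtain ⟨w, hw⟩ := h4
  rw [hw, Nat.mul_div_cancel_left _ (by norm_num)] at h2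
  rw [h1, h2]
  nlinarith

theorem ch2 (v : ℕ) : (2 * v + 1).choose 2 + v = 4 * (v + 1).choose 2 := by
  have h1 := Nat.choose_two_right (2 * v + 1)
  have h2 := Nat.choose_two_right (v + 1)
  have h3 : (2 * v + 1) * (2 * v + 1 - 1) = 2 * (2 * v ^ 2 + v) := by
    rw [Nat.add_sub_cancel]; ring
  rw [h3, Nat.mul_div_cancel_left _ (by norm_num)] at h1
  rw [Nat.add_sub_cancel] at h2
  have h4 : 2 ∣ (v + 1) * v := by
    rw [mul_comm]; exact (Nat.even_mul_succ_self v).two_dvd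
  obtain ⟨w, hw⟩ := h4
  rw [hw, Nat.mul_div_cancel_left _ (by norm_num)] at h2
  rw [h1, h2]
  nlinarith

theorem ms_le {f : ℕ → ℕ} {A : Multiset ℕ} {c : ℕ} (h : ∀ v ∈ A, f v ≤ c) :
    (A.map f).sum ≤ Multiset.card A * c := by
  have := Multiset.sum_le_card_nsmul (A.map f) c (by
    intro x hx
    obtain ⟨v, hv, rfl⟩ := Multiset.mem_map.1 hx
    exact h v hv)
  rwa [Multiset.card_map, smul_eq_mul] at this

theorem ms_ge {f : ℕ → ℕ} {A : Multiset ℕ} {c : ℕ} (h : ∀ v ∈ A, c ≤ f v) :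
    Multiset.card A * c ≤ (A.map f).sum := by
  have := Multiset.card_nsmul_le_sum (s := A.map f) (a := c) (by
    intro x hx
    obtain ⟨v, hv, rfl⟩ := Multiset.mem_map.1 hx
    exact h v hv)
  rwa [Multiset.card_map, smul_eq_mul] at this

theorem t (hR : S_RGG) (hB : S_BLK) : S_REGN := by
  classical
  intro n m b q d N h l' l hHN hl1 hl2 hl3 hl4 hd1 hd2 hN
  obtain ⟨hcard, hv, -, hn, -, hb, hm⟩ := hHN
  -- the elements
  have hvh : ∀ v ∈ h, v ≤ m ∧ m ≤ v + b := fun v hx => hv v (by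
    simp [Multiset.mem_add, Multiset.mem_nsmul, hx])
  have hvl' : ∀ v ∈ l', v ≤ m ∧ m ≤ v + b := fun v hx => hv v (by
    simp [Multiset.mem_add, Multiset.mem_nsmul, hx])
  have hvl : ∀ v ∈ l, v ≤ m ∧ m ≤ v + b := fun v hx => hv v (by
    simp [Multiset.mem_add, hx])
  -- sums over L
  have hsum : ∀ f : ℕ → ℕ, ((4 • (4 • h + l') + l).map f).sum =
      16 * (h.map f).sum + 4 * (l'.map f).sum + (l.map f).sum := by
    intro f
    rw [Multiset.map_add, Multiset.map_nsmul, Multiset.map_add, Multiset.map_nsmul,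
      Multiset.sum_add, Multiset.sum_nsmul, Multiset.sum_add, Multiset.sum_nsmul]
    simp only [smul_eq_mul]
    ring
  have hsum0 : (4 • (4 • h + l') + l).sum = 16 * h.sum + 4 * l'.sum + l.sum := by
    have := hsum id
    simpa using this
  have hcd : n = 16 * Multiset.card h + 4 * Multiset.card l' + Multiset.card l := by
    rw [← hcard, Multiset.card_add, Multiset.card_nsmul, Multiset.card_add, Multiset.card_nsmul]
    ring
  set ch := Multiset.card h with hch
  set c1 := Multiset.card l' with hc1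
  set c0 := Multiset.card l with hc0
  set Q := ((4 • (4 • h + l') + l).map fun v => v ^ 2).sum with hQ
  set M := (4 • (4 • h + l') + l).sum with hM
  have hQ' : Q = 16 * (h.map fun v => v ^ 2).sum + 4 * (l'.map fun v => v ^ 2).sum +
      (l.map fun v => v ^ 2).sum := hsum _
  -- bounds for Q and M
  have hQ2 : Q ≤ n * m ^ 2 := by
    rw [← hcard]
    exact ms_le fun v hx => Nat.pow_le_pow_left (hv v hx).1 2
  have hM2 : M ≤ n * m := by
    rw [← hcard]
    have := ms_le (f := id) (A := 4 • (4 • h + l') + l) (c := m) fun v hx => (hv v hx).1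
    rw [Multiset.map_id] at this
    exact this
  have hbm : b ≤ m := by
    have h1 : b ≤ n := by omega
    have h2 : n ≤ n ^ 5 := Nat.le_self_pow (by norm_num) n
    omega
  have hQ1 : (n : ℝ) * ((m : ℝ) - b) ^ 2 ≤ Q := by
    have h1 : n * (m - b) ^ 2 ≤ Q := by
      rw [← hcard]
      refine ms_ge fun v hx => Nat.pow_le_pow_left ?_ 2
      have := (hv v hx).2
      omega
    have h2 : ((n * (m - b) ^ 2 : ℕ) : ℝ) ≤ (Q : ℝ) := by exact_mod_cast h1
    rw [Nat.cast_mul, Nat.cast_pow, Nat.cast_sub hbm] at h2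
    exact h2
  obtain ⟨hk3, hka, hkb, hkr, hnm, hSn, hlt⟩ := ari n m b d Q M hn hb hm hQ1 hQ2 hM2 hd1 hd2
  set k : ℕ := Nat.sqrt n / 10 with hk
  -- cards
  have hS : Real.sqrt n * Real.sqrt n = n := Real.mul_self_sqrt (by positivity)
  have hn' : (10 : ℝ) ^ 10 ≤ n := by exact_mod_cast hn
  have hc1S : 5 * (c1 : ℝ) ≤ Real.sqrt n := by
    apply Real.le_sqrt_of_sq_le
    have : (25 : ℝ) * (c1 : ℝ) ^ 2 ≤ n := by exact_mod_cast hl3
    nlinarith
  have hc0S : 5 * (c0 : ℝ) ≤ Real.sqrt n := by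
    apply Real.le_sqrt_of_sq_le
    have : (25 : ℝ) * (c0 : ℝ) ^ 2 ≤ n := by exact_mod_cast hl1
    nlinarith
  have hS5 : (10 : ℝ) ^ 5 ≤ Real.sqrt n := by
    apply Real.le_sqrt_of_sq_le
    nlinarith
  have h1010 : (10 : ℝ) ^ 10 = 10000000000 := by norm_num
  have h105 : (10 : ℝ) ^ 5 = 100000 := by norm_num
  rw [h1010] at hn' hnm
  rw [h105] at hS5 hSn
  have hc0k : 20 ≤ c0 := by
    by_contra hcon
    push Not at hcon
    have : 100 * c0 ^ 2 ≤ 100 * 19 ^ 2 := Nat.mul_le_mul_left _ (Nat.pow_le_pow_left (by omega) 2)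
    omega
  have hc1k : 20 ≤ c1 := by
    by_contra hcon
    push Not at hcon
    have : 400 * c1 ^ 2 ≤ 400 * 19 ^ 2 := Nat.mul_le_mul_left _ (Nat.pow_le_pow_left (by omega) 2)
    omega
  have hcdR : (n : ℝ) = 16 * ch + 4 * c1 + c0 := by exact_mod_cast hcd
  have hchk : 20 ≤ ch := by
    have : (20 : ℝ) ≤ ch := by linarith
    exact_mod_cast this
  -- blocks
  obtain ⟨r0, T0, a0, N0, hr0, hr0c, hT0, hT0p, hT0l, hT0s⟩ :=
    hB ((h.map (fun v => 2 * v)).map (fun v => 2 * v)) 20 (4 * m) (4 * b) (by norm_num)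
      (by rw [Multiset.card_map, Multiset.card_map]; exact hchk) (by
        intro x hx
        obtain ⟨y, hy, rfl⟩ := Multiset.mem_map.1 hx
        obtain ⟨v, hv', rfl⟩ := Multiset.mem_map.1 hy
        have := hvh v hv'
        omega)
  obtain ⟨r1, T1, a1, N1, hr1, hr1c, hT1, hT1p, hT1l, hT1s⟩ :=
    hB (l'.map (fun v => 2 * v)) 20 (2 * m) (2 * b) (by norm_num)
      (by rw [Multiset.card_map]; exact hc1k) (by
        intro x hx
        obtain ⟨v, hv', rfl⟩ := Multiset.mem_map.1 hx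
        have := hvl' v hv'
        omega)
  obtain ⟨r2, T2, a2, N2, hr2, hr2c, hT2, hT2p, hT2l, hT2s⟩ :=
    hB l 20 m b (by norm_num) hc0k hvl
  rw [Multiset.card_map, Multiset.card_map] at hr0c
  rw [Multiset.card_map] at hr1c
  rw [← hT0, ← hT1]
  nth_rewrite 1 [← hT2]
  refine three hR d k _ r0 r1 r2 T0 T1 T2 a0 a1 a2 N0 N1 N2 hr0 hT0p hT1p hT2p
    (fun l hl => (hT0l l hl).1) (fun l hl => (hT1l l hl).1) (fun l hl => (hT2l l hl).1) hk3
    ?_ ?_ ?_ ?_ ?_ ?_
  · refine hkr (r0 + r1 + r2) ch c1 c0 ?_ ?_ hl3 hl1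
    · rw [← hch] at hr0c
      rw [← hc1] at hr1c
      rw [← hc0] at hr2c
      omega
    · omega
  · intro x hx
    obtain ⟨-, h2, -, h4, h5⟩ := hT0l x hx
    have h6 : m + 1 ≤ a0 x + b := by omega
    refine ⟨by omega, by omega, ?_, hkb _ _ h2 h6⟩
    exact lt_of_le_of_lt (Nat.mul_le_mul_left _ h5) hka
  · intro x hx
    obtain ⟨-, h2, -, h4, h5⟩ := hT1l x hx
    have h6 : m + 1 ≤ a1 x + b := by omega
    refine ⟨by omega, by omega, ?_, hkb _ _ h2 h6⟩
    exact lt_of_le_of_lt (Nat.mul_le_mul_left _ (by omega)) hka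
  · intro x hx
    obtain ⟨-, h2, -, h4, h5⟩ := hT2l x hx
    refine ⟨by omega, by omega, ?_, hkb _ _ h2 h4⟩
    exact lt_of_le_of_lt (Nat.mul_le_mul_left _ (by omega)) hka
  · -- the squares
    refine lt_of_le_of_lt (Nat.add_le_add hT0s (Nat.add_le_add hT1s hT2s)) ?_
    refine lt_of_le_of_lt ?_ hlt
    have s0 : (((h.map (fun v => 2 * v)).map (fun v => 2 * v)).map fun x => (x + 1) ^ 2).sum =
        16 * (h.map fun v => v ^ 2).sum + 8 * h.sum + ch := by
      rw [Multiset.map_map, Multiset.map_map, hch]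
      clear_value Q M
      clear * -
      induction h using Multiset.induction_on with
      | empty => simp
      | cons a s ih =>
        simp only [Multiset.map_cons, Multiset.sum_cons, Multiset.card_cons,
          Function.comp] at ih ⊢
        rw [ih]
        ring
    have s1 : ((l'.map (fun v => 2 * v)).map fun x => (x + 1) ^ 2).sum =
        4 * (l'.map fun v => v ^ 2).sum + 4 * l'.sum + c1 := by
      rw [Multiset.map_map, hc1]
      clear * -
      induction l' using Multiset.induction_on with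
      | empty => simp
      | cons a s ih =>
        simp only [Multiset.map_cons, Multiset.sum_cons, Multiset.card_cons,
          Function.comp] at ih ⊢
        rw [ih]
        ring
    have s2 : (l.map fun x => (x + 1) ^ 2).sum =
        (l.map fun v => v ^ 2).sum + 2 * l.sum + c0 := by
      rw [hc0]
      clear * -
      induction l using Multiset.induction_on with
      | empty => simp
      | cons a s ih =>
        simp only [Multiset.map_cons, Multiset.sum_cons, Multiset.card_cons, ih]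
        ring
    rw [s0, s1, s2, hQ', hsum0]
    have g1 : ch * (m - b) ≤ h.sum := by
      have := ms_ge (f := id) (A := h) (c := m - b) fun v hx => by
        have := (hvh v hx).2
        simp only [id]
        omega
      rw [Multiset.map_id] at this
      exact this
    have g2 : l.sum ≤ c0 * m := by
      have := ms_le (f := id) (A := l) (c := m) fun v hx => (hvl v hx).1
      rw [Multiset.map_id] at this
      exact this
    have g1' : (ch : ℝ) * ((m : ℝ) - b) ≤ (h.sum : ℕ) := by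
      have : ((ch * (m - b) : ℕ) : ℝ) ≤ (h.sum : ℕ) := by exact_mod_cast g1
      rw [Nat.cast_mul, Nat.cast_sub hbm] at this
      exact this
    have g2' : ((l.sum : ℕ) : ℝ) ≤ c0 * m := by exact_mod_cast g2
    have hb' : 10000 * (b : ℝ) ≤ n := by exact_mod_cast hb
    have hm0 : (0 : ℝ) ≤ m := by positivity
    have hb0 : (0 : ℝ) ≤ b := by positivity
    have key : (40 : ℝ) * (4 * b) * (8 * m + 2) + 40 * (2 * b) * (4 * m + 2) + 40 * b * (2 * m + 2)
        + (ch + c1 + c0) + l.sum ≤ 8 * h.sum := by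
      have k1 : (b : ℝ) * m ≤ n / 10000 * m := mul_le_mul_of_nonneg_right (by linarith) hm0
      have k2 : (b : ℝ) ≤ m / 1000 := by linarith
      have k3 : (n : ℝ) ≤ n * m / 1000 := by nlinarith
      have k4 : (c0 : ℝ) * m ≤ n * m / 1000 := by
        have : (c0 : ℝ) ≤ n / 1000 := by linarith
        nlinarith
      have k5 : (n : ℝ) * (49 / 800) ≤ ch := by linarith
      have k6 : (m : ℝ) * (999 / 1000) ≤ m - b := by linarith
      have k7 : (n : ℝ) * (49 / 800) * (m * (999 / 1000)) ≤ ch * (m - b) :=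
        mul_le_mul k5 k6 (by positivity) (by positivity)
      have k8 : (n : ℝ) * m * (48 / 800) ≤ ch * (m - b) := by nlinarith
      nlinarith
    have key' : 40 * (4 * b) * (8 * m + 2) + 40 * (2 * b) * (4 * m + 2) + 40 * b * (2 * m + 2)
        + (ch + c1 + c0) + l.sum ≤ 8 * h.sum := by exact_mod_cast key
    nlinarith
  · -- the binomials
    rw [hT0, hT1, hT2]
    have b0 : (((h.map (fun v => 2 * v)).map (fun v => 2 * v)).map fun x => (x + 1).choose 2).sum
        + 6 * h.sum = 16 * (h.map fun v => (v + 1).choose 2).sum := by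
      rw [Multiset.map_map, Multiset.map_map]
      clear * -
      induction h using Multiset.induction_on with
      | empty => simp
      | cons a s ih =>
        simp only [Multiset.map_cons, Multiset.sum_cons, Function.comp] at ih ⊢
        have := ch1 a
        linarith
    have b1 : ((l'.map (fun v => 2 * v)).map fun x => (x + 1).choose 2).sum
        + l'.sum = 4 * (l'.map fun v => (v + 1).choose 2).sum := by
      rw [Multiset.map_map]
      clear * -
      induction l' using Multiset.induction_on with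
      | empty => simp
      | cons a s ih =>
        simp only [Multiset.map_cons, Multiset.sum_cons, Function.comp] at ih ⊢
        have := ch2 a
        linarith
    have b2 : (4 • h + l').sum = 4 * h.sum + l'.sum := by
      rw [Multiset.sum_add, Multiset.sum_nsmul, smul_eq_mul]
    have b3 : (h.map (fun v => 2 * v)).sum = 2 * h.sum := by
      rw [Multiset.sum_map_mul_left, Multiset.map_id']
    have b4 := hsum fun v => (v + 1).choose 2
    rw [b4] at hN
    rw [b2, b3]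
    linarith

end Pool.Agent.Helper97.UC.REGN
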