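import Pool.Agent.Helper27.UC.Goals

/-!
PROJECT UC, packet TRN (14110): general position of a space of binary forms of degree `2 m`.
-/

set_option autoImplicit false

noncomputable section

namespace Pool.Agent.Helper97.UC

open Polynomial Module Pool.Agent.Helper27.UC

section

variable {K : Type} [Field K]

/-- the substitution `t ↦ A`, `s ↦ B` with values in `K[y]` -/
def ev2 (A B : Polynomial K) : R2 K →ₐ[K] Polynomial K :=
  Polynomial.eval₂AlgHom (Polynomial.aeval A : Polynomial K →ₐ[K] Polynomial K) B
    (fun _ => Commute.all _ _)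

theorem ev2_monomial (A B : Polynomial K) (i j : ℕ) (c : K) :
    ev2 A B (Polynomial.monomial j (Polynomial.monomial i c)) = C c * A ^ i * B ^ j := by
  unfold ev2
  simp [Polynomial.eval₂AlgHom, Polynomial.eval₂_monomial, Polynomial.aeval_monomial]

theorem ev2_CX (A B : Polynomial K) : ev2 A B (C X) = A := by
  have h := ev2_monomial A B 1 0 (1 : K)
  simpa [Polynomial.monomial_zero_left, Polynomial.monomial_one_one_eq_X] using h

theorem ev2_X (A B : Polynomial K) : ev2 A B X = B := by
  have h := ev2_monomial A B 0 1 (1 : K)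
  simpa [Polynomial.monomial_one_one_eq_X] using h

theorem ev2_CC (A B : Polynomial K) (c : K) : ev2 A B (C (C c)) = C c := by
  have h := ev2_monomial A B 0 0 c
  simpa [Polynomial.monomial_zero_left] using h

theorem ev2_hom {N : ℕ} {g : R2 K} (hg : hc N g = g) (A B : Polynomial K) :
    ev2 A B g = ∑ k ∈ Finset.range (N + 1), C (cof (N - k) k g) * A ^ (N - k) * B ^ k := by
  conv_lhs => rw [← hg]
  unfold hc
  simp only [LinearMap.coe_mk, AddHom.coe_mk]
  rw [map_sum]
  exact Finset.sum_congr rfl fun k _ => ev2_monomial A B (N - k) k _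

/-- algebra maps from `R2 K` to `K[y]` agreeing at `t` and `s` are equal -/
theorem hom_ext {f g : R2 K →ₐ[K] Polynomial K} (h1 : f (C X) = g (C X)) (h2 : f X = g X) :
    f = g := by
  apply AlgHom.ext
  intro x
  induction x using Polynomial.induction_on' with
  | add p q hp hq => rw [map_add, map_add, hp, hq]
  | monomial n a =>
    rw [← Polynomial.C_mul_X_pow_eq_monomial, map_mul, map_mul, map_pow, map_pow, h2]
    congr 1
    induction a using Polynomial.induction_on' with
    | add p q hp hq => rw [map_add, map_add, map_add, hp, hq]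
    | monomial i c =>
      have h3 : (C (Polynomial.monomial i c) : R2 K) = algebraMap K (R2 K) c * (C X) ^ i := by
        rw [← Polynomial.C_mul_X_pow_eq_monomial, map_mul, map_pow]
        rfl
      rw [h3, map_mul, map_mul, map_pow, map_pow, h1, AlgHom.commutes, AlgHom.commutes]

theorem ev2_comp (A B D : Polynomial K) (g : R2 K) :
    (ev2 A B g).comp D = ev2 (A.comp D) (B.comp D) g := by
  have h : (Polynomial.aeval D : Polynomial K →ₐ[K] Polynomial K).comp (ev2 A B) =
      ev2 (A.comp D) (B.comp D) := by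
    apply hom_ext
    · rw [AlgHom.comp_apply, ev2_CX, ev2_CX]
      rfl
    · rw [AlgHom.comp_apply, ev2_X, ev2_X]
      rfl
  have h2 := congrArg (fun f : R2 K →ₐ[K] Polynomial K => f g) h
  exact h2

theorem subt_CX (A B : R2 K) : subt A B (C X) = A := by
  unfold subt
  simp [Polynomial.eval₂AlgHom]

theorem subt_X (A B : R2 K) : subt A B X = B := by
  unfold subt
  simp [Polynomial.eval₂AlgHom]

theorem ev2_subt (A B : Polynomial K) (P Q : R2 K) (g : R2 K) :
    ev2 A B (subt P Q g) = ev2 (ev2 A B P) (ev2 A B Q) g := by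
  have h : (ev2 A B).comp (subt P Q) = ev2 (ev2 A B P) (ev2 A B Q) := by
    apply hom_ext
    · rw [AlgHom.comp_apply, subt_CX, ev2_CX]
    · rw [AlgHom.comp_apply, subt_X, ev2_X]
  exact congrArg (fun f : R2 K →ₐ[K] Polynomial K => f g) h

theorem ev2_lin (A B : Polynomial K) (p q : K) : ev2 A B (lin p q) = C p * A + C q * B := by
  unfold lin
  rw [map_add, map_mul (ev2 A B) (C (C q)) X, ev2_X, ev2_CC, map_mul C, map_mul (ev2 A B), ev2_CC,
    ev2_CX]

theorem ev2_neg {m : ℕ} {g : R2 K} (hg : hc (2 * m) g = g) (A B : Polynomial K) :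
    ev2 (-A) (-B) g = ev2 A B g := by
  rw [ev2_hom hg, ev2_hom hg]
  refine Finset.sum_congr rfl fun k hk => ?_
  have hk2 : k ≤ 2 * m := Nat.lt_succ_iff.1 (Finset.mem_range.1 hk)
  have h : (-A) ^ (2 * m - k) * (-B) ^ k = A ^ (2 * m - k) * B ^ k := by
    rw [neg_pow A, neg_pow B]
    have h1 : ((-1 : Polynomial K)) ^ (2 * m - k) * (-1) ^ k = 1 := by
      rw [← pow_add, Nat.sub_add_cancel hk2, pow_mul]
      simp
    linear_combination (A ^ (2 * m - k) * B ^ k) * h1
  linear_combination (C (cof (2 * m - k) k g)) * h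

/-- the value at `t = c` -/
theorem ev2_const (c : K) (H : R2 K) (j : ℕ) : (ev2 (C c) X H).coeff j = (H.coeff j).eval c := by
  induction H using Polynomial.induction_on' with
  | add p q hp hq => rw [map_add, Polynomial.coeff_add, Polynomial.coeff_add, hp, hq,
      Polynomial.eval_add]
  | monomial n a =>
    induction a using Polynomial.induction_on' with
    | add p q hp hq =>
      rw [map_add, map_add, Polynomial.coeff_add, Polynomial.coeff_add, hp, hq, Polynomial.eval_add]
    | monomial i d =>
      rw [ev2_monomial, ← map_pow, ← map_mul, Polynomial.coeff_C_mul, Polynomial.coeff_X_pow,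
        Polynomial.coeff_monomial]
      by_cases h : n = j
      · subst h
        simp
      · rw [if_neg h, if_neg (Ne.symm h)]
        simp

theorem ev2_pm {H : R2 K} (h : ∀ i j, Odd i → cof i j H = 0) :
    ev2 (C 1) X H = ev2 (C (-1)) X H := by
  ext j
  rw [ev2_const, ev2_const, Polynomial.eval_eq_sum_range, Polynomial.eval_eq_sum_range]
  refine Finset.sum_congr rfl fun i _ => ?_
  rcases Nat.even_or_odd i with hi | hi
  · rw [hi.neg_pow]
  · have := h i j hi
    unfold cof at this
    rw [this]
    simp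

theorem reflect_lin_pow (κ : K) (n : ℕ) :
    Polynomial.reflect n ((X + C κ) ^ n) = (1 + C κ * X) ^ n := by
  induction n with
  | zero => simp
  | succ n ih =>
    rw [pow_succ, Polynomial.reflect_mul _ _ (F := n) (G := 1), ih, pow_succ]
    · congr 1
      ext i
      rw [Polynomial.coeff_reflect]
      rcases i with _ | _ | i
      · simp
      · simp [Polynomial.coeff_one]
      · rw [Polynomial.revAt_eq_self_of_lt (by omega)]
        simp [Polynomial.coeff_X, Polynomial.coeff_one]
    · calc ((X + C κ) ^ n).natDegree ≤ n * (X + C κ).natDegree := Polynomial.natDegree_pow_le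
        _ ≤ n * 1 := Nat.mul_le_mul_left _ (by rw [Polynomial.natDegree_X_add_C])
        _ = n := by rw [mul_one]
    · rw [Polynomial.natDegree_X_add_C]

theorem reflect_term {N k : ℕ} (hk : k ≤ N) (κ : K) :
    Polynomial.reflect N ((X + C κ) ^ (N - k)) = (1 + C κ * X) ^ (N - k) * X ^ k := by
  have h1 : N = (N - k) + k := by omega
  have h2 : (X + C κ) ^ (N - k) = (X + C κ) ^ (N - k) * (1 : Polynomial K) := by rw [mul_one]
  have h3 : Polynomial.reflect k (1 : Polynomial K) = X ^ k := by
    have := Polynomial.reflect_C_mul_X_pow (R := K) k 0 (c := 1)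
    simpa using this
  have h4 : Polynomial.reflect N ((X + C κ) ^ (N - k)) =
      Polynomial.reflect ((N - k) + k) ((X + C κ) ^ (N - k) * (1 : Polynomial K)) := by
    rw [← h1, mul_one]
  rw [h4, Polynomial.reflect_mul _ _ (F := N - k) (G := k), reflect_lin_pow, h3]
  · calc ((X + C κ) ^ (N - k)).natDegree ≤ (N - k) * (X + C κ).natDegree :=
          Polynomial.natDegree_pow_le
      _ ≤ (N - k) * 1 := Nat.mul_le_mul_left _ (by rw [Polynomial.natDegree_X_add_C])
      _ = N - k := by rw [mul_one]
  · simp

theorem reflect_sum (N : ℕ) {ι : Type} (s : Finset ι) (f : ι → Polynomial K) :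
    Polynomial.reflect N (∑ i ∈ s, f i) = ∑ i ∈ s, Polynomial.reflect N (f i) := by
  classical
  induction s using Finset.induction_on with
  | empty => simp
  | insert a s ha ih => rw [Finset.sum_insert ha, Finset.sum_insert ha, Polynomial.reflect_add, ih]

/-- the reversal -/
theorem ev2_reflect {N : ℕ} {g : R2 K} (hg : hc N g = g) (κ : K) :
    ev2 (1 + C κ * X) X g = Polynomial.reflect N ((ev2 X 1 g).comp (X + C κ)) := by
  rw [ev2_comp, ev2_hom hg, ev2_hom hg, reflect_sum]
  refine Finset.sum_congr rfl fun k hk => ?_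
  have hk2 : k ≤ N := Nat.lt_succ_iff.1 (Finset.mem_range.1 hk)
  rw [Polynomial.X_comp, Polynomial.one_comp, one_pow, mul_one, Polynomial.reflect_C_mul,
    reflect_term hk2, mul_assoc]

theorem ev2_natDegree {N : ℕ} {g : R2 K} (hg : hc N g = g) (κ : K) :
    (ev2 (1 + C κ * X) X g).natDegree ≤ N := by
  rw [ev2_hom hg]
  apply Polynomial.natDegree_sum_le_of_forall_le
  intro k hk
  have hk2 : k ≤ N := Nat.lt_succ_iff.1 (Finset.mem_range.1 hk)
  have h1 : (1 + C κ * X : Polynomial K).natDegree ≤ 1 := by
    have : (1 + C κ * X : Polynomial K) = C κ * X + C 1 := by rw [map_one]; ring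
    rw [this]
    exact Polynomial.natDegree_linear_le
  calc (C (cof (N - k) k g) * (1 + C κ * X) ^ (N - k) * X ^ k : Polynomial K).natDegree
      ≤ (C (cof (N - k) k g) * (1 + C κ * X) ^ (N - k) : Polynomial K).natDegree +
        (X ^ k : Polynomial K).natDegree := Polynomial.natDegree_mul_le
    _ ≤ (N - k) + k := by
      apply Nat.add_le_add
      · calc (C (cof (N - k) k g) * (1 + C κ * X) ^ (N - k) : Polynomial K).natDegree
            ≤ ((1 + C κ * X) ^ (N - k) : Polynomial K).natDegree :=
              Polynomial.natDegree_C_mul_le _ _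
          _ ≤ (N - k) * (1 + C κ * X : Polynomial K).natDegree := Polynomial.natDegree_pow_le
          _ ≤ (N - k) * 1 := Nat.mul_le_mul_left _ h1
          _ = N - k := by rw [mul_one]
      · exact Polynomial.natDegree_X_pow_le k
    _ = N := by omega

/-- `g(z, 1) = 0` only for `g = 0` -/
theorem ev2_inj {N : ℕ} {g : R2 K} (hg : hc N g = g) (h : ev2 X 1 g = 0) : g = 0 := by
  rw [ev2_hom hg] at h
  have h0 : ∀ k ∈ Finset.range (N + 1), cof (N - k) k g = 0 := by
    intro k hk
    have hk2 : k ≤ N := Nat.lt_succ_iff.1 (Finset.mem_range.1 hk)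
    have h1 := congrArg (fun p : Polynomial K => p.coeff (N - k)) h
    simp only [Polynomial.coeff_zero] at h1
    rw [Polynomial.finsetSum_coeff, Finset.sum_eq_single k] at h1
    · simpa using h1
    · intro l hl hlk
      have hl2 : l ≤ N := Nat.lt_succ_iff.1 (Finset.mem_range.1 hl)
      rw [one_pow, mul_one, Polynomial.coeff_C_mul, Polynomial.coeff_X_pow, if_neg (by omega),
        mul_zero]
    · intro h2
      exact absurd hk h2
  rw [← hg]
  unfold hc
  simp only [LinearMap.coe_mk, AddHom.coe_mk]
  apply Finset.sum_eq_zero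
  intro k hk
  rw [h0 k hk]
  simp

end

theorem trn_of (hW : S_WRO) (hT : S_TAU) : S_TRN := by
  intro K _ _ m G hG hfd hr
  -- WRO
  set U : Submodule K (Polynomial K) := G.map (ev2 X 1 : R2 K →ₐ[K] Polynomial K).toLinearMap with hU
  have : FiniteDimensional K U := by
    rw [hU]; infer_instance
  have hUr : finrank K U ≤ m := le_trans (Submodule.finrank_map_le _ _) hr
  obtain ⟨κ, hκ⟩ := hW K U inferInstance
  -- TAU
  set U2 : Submodule K (Polynomial K) :=
    G.map (ev2 (1 + C κ * X) X : R2 K →ₐ[K] Polynomial K).toLinearMap with hU2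
  have hU2r : finrank K U2 ≤ m := le_trans (Submodule.finrank_map_le _ _) hr
  have hdeg : ∀ f ∈ U2, f.natDegree ≤ 2 * m := by
    rintro f ⟨g, hg, rfl⟩
    exact ev2_natDegree (hG g hg) κ
  have hlow : ∀ g ∈ G, (ev2 (1 + C κ * X) X g).natDegree ≤ m → g = 0 := by
    intro g hg hd
    have h1 := ev2_reflect (hG g hg) κ
    have h2 : (X : Polynomial K) ^ m ∣ (ev2 X 1 g).comp (X + C κ) := by
      rw [Polynomial.X_pow_dvd_iff]
      intro l hl
      have h3 : (ev2 (1 + C κ * X) X g).coeff (2 * m - l) = 0 :=
        Polynomial.coeff_eq_zero_of_natDegree_lt (by omega)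
      rw [h1, Polynomial.coeff_reflect, Polynomial.revAt_le (by omega)] at h3
      have h4 : 2 * m - (2 * m - l) = l := by omega
      rwa [h4] at h3
    have h5 : (X - C κ) ^ m ∣ ev2 X 1 g := by
      obtain ⟨w, hw⟩ := h2
      refine ⟨w.comp (X - C κ), ?_⟩
      have h6 := congrArg (fun p : Polynomial K => p.comp (X - C κ)) hw
      beta_reduce at h6
      rw [Polynomial.comp_assoc, Polynomial.mul_comp, Polynomial.pow_comp, Polynomial.X_comp] at h6
      have h7 : (X + C κ : Polynomial K).comp (X - C κ) = X := by simp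
      rw [h7, Polynomial.comp_X] at h6
      exact h6
    have h8 : ev2 X 1 g = 0 := by
      apply hκ
      · exact ⟨g, hg, rfl⟩
      · exact (pow_dvd_pow _ hUr).trans h5
    exact ev2_inj (hG g hg) h8
  obtain ⟨τ, hτ⟩ := hT K m U2 hdeg hU2r (by
    rintro f ⟨g, hg, rfl⟩ hd
    have h9 := hlow g hg hd
    rw [h9]; exact map_zero _)
  refine ⟨1 - τ * κ, κ, -τ, 1, ?_, ?_⟩
  · have : (1 - τ * κ) * 1 - -τ * κ = 1 := by ring
    rw [this]; exact one_ne_zero
  · intro g hg hodd
    have h1 := ev2_pm hodd
    rw [ev2_subt, ev2_subt, ev2_lin, ev2_lin, ev2_lin, ev2_lin] at h1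
    have h2 : (ev2 (1 + C κ * X) X g).comp (X - C τ) = (ev2 (1 + C κ * X) X g).comp (-X - C τ) := by
      rw [ev2_comp, ev2_comp]
      have e1 : (1 + C κ * X : Polynomial K).comp (X - C τ) =
          C (1 - τ * κ) * C 1 + C κ * X := by
        simp only [Polynomial.add_comp, Polynomial.one_comp, Polynomial.mul_comp,
          Polynomial.C_comp, Polynomial.X_comp, map_sub, map_mul, map_one]
        ring
      have e2 : (X : Polynomial K).comp (X - C τ) = C (-τ) * C 1 + C 1 * X := by
        simp only [Polynomial.X_comp, map_neg, map_one]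
        ring
      have e3 : (1 + C κ * X : Polynomial K).comp (-X - C τ) =
          -(C (1 - τ * κ) * C (-1) + C κ * X) := by
        simp only [Polynomial.add_comp, Polynomial.one_comp, Polynomial.mul_comp,
          Polynomial.C_comp, Polynomial.X_comp, map_sub, map_mul, map_one, map_neg]
        ring
      have e4 : (X : Polynomial K).comp (-X - C τ) = -(C (-τ) * C (-1) + C 1 * X) := by
        simp only [Polynomial.X_comp, map_neg, map_one]
        ring
      rw [e1, e2, e3, e4, ev2_neg (hG g hg)]
      exact h1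
    have h3 : ev2 (1 + C κ * X) X g = 0 := hτ _ ⟨g, hg, rfl⟩ h2
    apply hlow g hg
    rw [h3]
    simp

end Pool.Agent.Helper97.UC
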