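import Pool.Agent.Helper27.UC.Goals8

/-!
PROJECT UC: packet RG3, the regular side for repeated multiplicities, explicit form (helper97).
-/

set_option autoImplicit false

noncomputable section

namespace Pool.Agent.Helper97.UC.RG3

open Module Pool.Agent.Helper27.UC

/-- arithmetic of the degree, explicit form -/
theorem ari (c d Q M v : ℕ) (hc : 1 ≤ c) (hv : 2 ≤ v) (hvQ : (100 * c * v) ^ 2 ≤ Q)
    (hMQ : 2 * M ≤ Q)
    (hd1 : d * (d + 1) < Q + M) (hd2 : Q + M ≤ (d + 2) * (d + 3)) :
    Q + M < (d + 3) ^ 2 ∧ (d + 3) ^ 2 ≤ 2 * Q ∧ 200 * c < d + 3 ∧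
    (∀ w : ℕ, 2 ≤ w → (100 * c * w) ^ 2 ≤ Q → 20 * c * (4 * w + 1) < d + 3) := by
  have hlt : Q + M < (d + 3) ^ 2 := by nlinarith
  have hcv : 200 * c ≤ 100 * c * v := by nlinarith
  have h200 : 200 ≤ 100 * c * v := by omega
  have hQ : 40000 ≤ Q := by
    calc 40000 = 200 ^ 2 := by norm_num
      _ ≤ (100 * c * v) ^ 2 := Nat.pow_le_pow_left h200 2
      _ ≤ Q := hvQ
  have hd : 197 < d := by
    by_contra hcon
    push Not at hcon
    have : (d + 3) ^ 2 ≤ 200 ^ 2 := Nat.pow_le_pow_left (by omega) 2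
    omega
  refine ⟨hlt, ?_, ?_, ?_⟩
  · nlinarith
  · have h1 : (100 * c * v) ^ 2 < (d + 3) ^ 2 := by omega
    have h2 := lt_of_pow_lt_pow_left₀ 2 (by omega) h1
    omega
  · intro w hw hwQ
    have h1 : (100 * c * w) ^ 2 < (d + 3) ^ 2 := by omega
    have h2 := lt_of_pow_lt_pow_left₀ 2 (by omega) h1
    refine lt_of_le_of_lt ?_ h2
    calc 20 * c * (4 * w + 1) ≤ 20 * c * (5 * w) := Nat.mul_le_mul_left _ (by omega)
      _ = 100 * c * w := by ring

theorem ch1 (v : ℕ) : (4 * v + 1).choose 2 + 6 * v = 16 * (v + 1).choose 2 := by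
  have h1 := Nat.choose_two_right (4 * v + 1)
  have h2 := Nat.choose_two_right (v + 1)
  have h3 : (4 * v + 1) * (4 * v + 1 - 1) = 2 * (8 * v ^ 2 + 2 * v) := by
    rw [Nat.add_sub_cancel]; ring
  rw [h3, Nat.mul_div_cancel_left _ (by norm_num)] at h1
  rw [Nat.add_sub_cancel] at h2
  have h4 : 2 ∣ (v + 1) * v := by
    rw [mul_comm]; exact (Nat.even_mul_succ_self v).two_dvd
  obtain ⟨w, hw⟩ := h4
  rw [hw, Nat.mul_div_cancel_left _ (by norm_num)] at h2
  rw [h1, h2]
  nlinarith

theorem ch2 (v : ℕ) : (2 * v + 1).choose 2 + v = 4 * (v + 1).choose 2 := by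
  have h1 := Nat.choose_two_right (2 * v + 1)
  have h2 := Nat.choose_two_right (v + 1)
  have h3 : (2 * v + 1) * (2 * v + 1 - 1) = 2 * (2 * v ^ 2 + v) := by
    rw [Nat.add_sub_cancel]; ring
  rw [h3, Nat.mul_div_cancel_left _ (by norm_num)] at h1
  rw [Nat.add_sub_cancel] at h2
  have h4 : 2 ∣ (v + 1) * v := by
    rw [mul_comm]; exact (Nat.even_mul_succ_self v).two_dvd
  obtain ⟨w, hw⟩ := h4
  rw [hw, Nat.mul_div_cancel_left _ (by norm_num)] at h2
  rw [h1, h2]
  nlinarith

theorem sum_h (h : Multiset ℕ) : (h.map fun v => (4 * v + 1) ^ 2).sum =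
    16 * (h.map fun v => v ^ 2).sum + 8 * h.sum + Multiset.card h := by
  induction h using Multiset.induction_on with
  | empty => simp
  | cons a s ih =>
    simp only [Multiset.map_cons, Multiset.sum_cons, Multiset.card_cons]
    rw [ih]
    ring

theorem sum_l (h : Multiset ℕ) : (h.map fun v => (2 * v + 1) ^ 2).sum =
    4 * (h.map fun v => v ^ 2).sum + 4 * h.sum + Multiset.card h := by
  induction h using Multiset.induction_on with
  | empty => simp
  | cons a s ih =>
    simp only [Multiset.map_cons, Multiset.sum_cons, Multiset.card_cons]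
    rw [ih]
    ring

/-- the squares of the tags of the third list: `(x + 1)² ≤ y² + 2 x (x - y) + 2 y + 2 x (x - y) + 1`
and `1 ≤ y` -/
theorem sum_P (P : Multiset (ℕ × ℕ)) (hP : ∀ p ∈ P, 2 ≤ p.2 ∧ p.2 ≤ p.1) :
    (P.map fun p => (p.1 + 1) ^ 2).sum ≤
    (P.map fun p => p.2 ^ 2).sum + 4 * (P.map fun p => p.1 * (p.1 - p.2)).sum +
      3 * (P.map fun p => p.2).sum := by
  induction P using Multiset.induction_on with
  | empty => simp
  | cons a s ih =>
    simp only [Multiset.map_cons, Multiset.sum_cons]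
    have h1 := ih fun p hp => hP p (Multiset.mem_cons_of_mem hp)
    have h2 := hP a (Multiset.mem_cons_self a s)
    obtain ⟨x, y⟩ := a
    simp only at h2 ⊢
    obtain ⟨h3, h4⟩ := h2
    obtain ⟨z, rfl⟩ := Nat.exists_eq_add_of_le h4
    have e : y + z - y = z := by omega
    rw [e]
    have h5 : (y + z + 1) ^ 2 ≤ y ^ 2 + 4 * ((y + z) * z) + 3 * y := by nlinarith
    linarith

theorem two_card (h : Multiset ℕ) (hh : ∀ v ∈ h, 2 ≤ v) : 2 * Multiset.card h ≤ h.sum := by
  induction h using Multiset.induction_on with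
  | empty => simp
  | cons a s ih =>
    simp only [Multiset.sum_cons, Multiset.card_cons]
    have h1 := ih fun p hp => hh p (Multiset.mem_cons_of_mem hp)
    have h2 := hh a (Multiset.mem_cons_self a s)
    omega

theorem bin_h (h : Multiset ℕ) : (h.map fun v => (4 * v + 1).choose 2).sum + 6 * h.sum =
    16 * (h.map fun v => (v + 1).choose 2).sum := by
  induction h using Multiset.induction_on with
  | empty => simp
  | cons a s ih =>
    simp only [Multiset.map_cons, Multiset.sum_cons]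
    have := ch1 a
    linarith

theorem bin_l (h : Multiset ℕ) : (h.map fun v => (2 * v + 1).choose 2).sum + h.sum =
    4 * (h.map fun v => (v + 1).choose 2).sum := by
  induction h using Multiset.induction_on with
  | empty => simp
  | cons a s ih =>
    simp only [Multiset.map_cons, Multiset.sum_cons]
    have := ch2 a
    linarith

theorem fib {ι : Type} [DecidableEq ι] (T : Multiset (ι × ℕ)) (g : ι → ℕ) :
    ∑ i ∈ (T.map Prod.fst).toFinset, (T.map Prod.fst).count i * g i =
      (T.map fun p => g p.1).sum := by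
  have h := Finset.sum_multiset_map_count (T.map Prod.fst) g
  rw [Multiset.map_map] at h
  simp only [smul_eq_mul] at h
  exact h.symm

theorem cnt {ι : Type} [DecidableEq ι] (T : Multiset (ι × ℕ)) (i : ι) :
    Multiset.card (T.filter fun p => p.1 = i) = (T.map Prod.fst).count i := by
  rw [Multiset.count_map]
  congr 1
  exact Multiset.filter_congr fun x _ => eq_comm

theorem card_tag (j : ℕ) (s : Multiset ℕ) :
    (s.map fun v => ((j, v) : ℕ × ℕ)).toFinset.card ≤ s.toFinset.card := by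
  rw [Multiset.toFinset_map]
  exact Finset.card_image_le

theorem t (hR : S_RGG) (hB : S_HEB) : S_RG3 := by
  classical
  intro c Q M d N h l P hHE hCR hN
  obtain ⟨b1, b2, b3, b4, b5, b6, b7⟩ := hB c Q M h l P hHE
  obtain ⟨hc, hQ, hM, hh, hl, hP, hhc, hlc, hPc, hM0, hls, hPs, hPd⟩ := hHE
  obtain ⟨hd1, hd2⟩ := hCR
  have hQ0 : 0 < Q := by omega
  have hh0 : h ≠ 0 := by
    rintro rfl
    simp only [Multiset.sum_zero, mul_zero] at b3
    omega
  obtain ⟨v0, hv0⟩ := Multiset.exists_mem_of_ne_zero hh0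
  obtain ⟨hv2, hvQ, -⟩ := hh v0 hv0
  obtain ⟨hlt, hle, -, hka⟩ := ari c d Q M v0 hc hv2 hvQ b2 hd1 hd2
  set k : ℕ := 20 * c with hk
  set f2 : ℕ → (ℕ × ℕ) × ℕ := fun v => ((2, v), 4 * v) with hf2
  set f1 : ℕ → (ℕ × ℕ) × ℕ := fun v => ((1, v), 2 * v) with hf1
  set f0 : ℕ × ℕ → (ℕ × ℕ) × ℕ := fun p => ((0, p.1), p.2) with hf0
  set T : Multiset ((ℕ × ℕ) × ℕ) := h.map f2 + l.map f1 + P.map f0 with hT
  set a : ℕ × ℕ → ℕ := fun i => 2 ^ i.1 * i.2 + 1 with ha
  have hTf : T.map Prod.fst = h.map (fun v => (2, v)) + l.map (fun v => (1, v)) +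
      P.map (fun p => (0, p.1)) := by
    rw [hT, Multiset.map_add, Multiset.map_add, Multiset.map_map, Multiset.map_map,
      Multiset.map_map]
    rfl
  have hTm : ∀ (β : Type) (g : (ℕ × ℕ) × ℕ → β), T.map g = h.map (fun v => g ((2, v), 4 * v)) +
      l.map (fun v => g ((1, v), 2 * v)) + P.map (fun p => g ((0, p.1), p.2)) := by
    intro β g
    rw [hT, Multiset.map_add, Multiset.map_add, Multiset.map_map, Multiset.map_map,
      Multiset.map_map]
    rfl
  have hsq : ∀ x : ℕ, 2 * Q ≤ (k * x) ^ 2 → 1 ≤ x ∧ d + 3 ≤ k * x := by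
    intro x hx
    refine ⟨?_, ?_⟩
    · rcases Nat.eq_zero_or_pos x with rfl | h0
      · simp only [mul_zero] at hx
        omega
      · exact h0
    · exact (Nat.pow_le_pow_iff_left (by norm_num)).1 (hle.trans hx)
  -- the elements
  have hel : ∀ i ∈ T.map Prod.fst, 1 ≤ (T.map Prod.fst).count i ∧ k * a i < d + 3 ∧
      d + 3 ≤ k * ((T.map Prod.fst).count i * a i) := by
    intro i hi
    refine ⟨Multiset.one_le_count_iff_mem.2 hi, ?_⟩
    rw [hTf, Multiset.mem_add, Multiset.mem_add, Multiset.mem_map, Multiset.mem_map,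
      Multiset.mem_map] at hi
    rcases hi with (⟨v, hv, rfl⟩ | ⟨v, hv, rfl⟩) | ⟨p, hp, rfl⟩
    · obtain ⟨h1, h2, h3⟩ := hh v hv
      refine ⟨?_, ?_⟩
      · refine lt_of_le_of_lt (Nat.mul_le_mul_left _ ?_) (hka v h1 h2)
        show 2 ^ 2 * v + 1 ≤ 4 * v + 1
        omega
      · refine (hsq _ h3).2.trans (Nat.mul_le_mul_left _ ?_)
        rw [hTf, Multiset.count_add, Multiset.count_add]
        have h4 : Multiset.count (2, v) (h.map fun v => (2, v)) = h.count v :=
          Multiset.count_map_eq_count' (fun v : ℕ => ((2 : ℕ), v)) h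
            (fun x y hxy => (Prod.ext_iff.1 hxy).2) v
        rw [h4]
        rw [mul_comm (4 * v)]
        refine Nat.mul_le_mul (by omega) ?_
        show 4 * v ≤ 2 ^ 2 * v + 1
        omega
    · obtain ⟨h1, h2, h3⟩ := hl v hv
      refine ⟨?_, ?_⟩
      · refine lt_of_le_of_lt (Nat.mul_le_mul_left _ ?_) (hka v h1 h2)
        show 2 ^ 1 * v + 1 ≤ 4 * v + 1
        omega
      · refine (hsq _ h3).2.trans (Nat.mul_le_mul_left _ ?_)
        rw [hTf, Multiset.count_add, Multiset.count_add]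
        have h4 : Multiset.count (1, v) (l.map fun v => (1, v)) = l.count v :=
          Multiset.count_map_eq_count' (fun v : ℕ => ((1 : ℕ), v)) l
            (fun x y hxy => (Prod.ext_iff.1 hxy).2) v
        rw [h4]
        rw [mul_comm (2 * v)]
        refine Nat.mul_le_mul (by omega) ?_
        show 2 * v ≤ 2 ^ 1 * v + 1
        omega
    · obtain ⟨h1, h2, h3, h4⟩ := hP p hp
      refine ⟨?_, ?_⟩
      · refine lt_of_le_of_lt (Nat.mul_le_mul_left _ ?_) (hka p.1 (h1.trans h2) h3)
        show 2 ^ 0 * p.1 + 1 ≤ 4 * p.1 + 1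
        omega
      · refine (hsq _ h4).2.trans (Nat.mul_le_mul_left _ ?_)
        rw [hTf, Multiset.count_add, Multiset.count_add]
        have h5 : Multiset.count (0, p.1) (P.map fun p => (0, p.1)) = (P.map Prod.fst).count p.1 := by
          have h6 : (P.map fun p => ((0 : ℕ), p.1)) = (P.map Prod.fst).map (fun v => ((0 : ℕ), v)) := by
            rw [Multiset.map_map]
            rfl
          rw [h6]
          exact Multiset.count_map_eq_count' (fun v : ℕ => ((0 : ℕ), v)) (P.map Prod.fst)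
            (fun x y hxy => (Prod.ext_iff.1 hxy).2) p.1
        rw [h5]
        rw [mul_comm p.1]
        refine Nat.mul_le_mul (by omega) ?_
        show p.1 ≤ 2 ^ 0 * p.1 + 1
        omega
  -- the number of rows
  have hI : (T.map Prod.fst).toFinset.card ≤ 3 * c ^ 2 := by
    rw [hTf, Multiset.toFinset_add, Multiset.toFinset_add]
    refine (Finset.card_union_le _ _).trans ?_
    refine (Nat.add_le_add_right (Finset.card_union_le _ _) _).trans ?_
    have h1 := (card_tag 2 h).trans hhc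
    have h2 := (card_tag 1 l).trans hlc
    have h3 := (card_tag 0 (P.map Prod.fst)).trans hPc
    rw [Multiset.map_map] at h3
    have h4 : (P.map fun p => ((0 : ℕ), p.1)).toFinset.card ≤ c ^ 2 := h3
    omega
  have key := hR (ℕ × ℕ) d k (N + 6 * h.sum + l.sum) (T.map Prod.fst).toFinset a
    (fun i => (T.map Prod.fst).count i) T ?_ ?_ (fun i _ => cnt T i) (by omega) ?_ ?_ ?_ ?_
  · rw [hTm ℕ Prod.snd] at key
    exact key
  · refine ⟨(2, v0), ?_⟩
    rw [Multiset.mem_toFinset, hTf]
    simp [hv0]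
  · intro p hp
    refine ⟨by
      rw [Multiset.mem_toFinset]
      exact Multiset.mem_map_of_mem _ hp, ?_⟩
    rw [hT, Multiset.mem_add, Multiset.mem_add, Multiset.mem_map, Multiset.mem_map,
      Multiset.mem_map] at hp
    rcases hp with (⟨v, hv, rfl⟩ | ⟨v, hv, rfl⟩) | ⟨p, hp, rfl⟩
    · show 4 * v + 1 ≤ 2 ^ 2 * v + 1
      omega
    · show 2 * v + 1 ≤ 2 ^ 1 * v + 1
      omega
    · show p.2 + 1 ≤ 2 ^ 0 * p.1 + 1
      have := (hP p hp).2.1
      omega
  · obtain ⟨e, rfl⟩ := Nat.exists_eq_add_of_le hc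
    have e1 : k - 1 = 20 * e + 19 := by omega
    have e2 : k - 2 = 20 * e + 18 := by omega
    rw [e1, e2]
    nlinarith
  · intro i hi
    rw [Multiset.mem_toFinset] at hi
    obtain ⟨h1, h2, h3⟩ := hel i hi
    exact ⟨Nat.succ_pos _, h1, h2, h3⟩
  · -- squares
    have h1 := fib T (fun i => a i ^ 2)
    refine lt_of_le_of_lt (le_of_eq h1) ?_
    refine lt_of_le_of_lt ?_ hlt
    rw [hTm ℕ (fun p => a p.1 ^ 2), Multiset.sum_add, Multiset.sum_add]
    have e2 : (h.map fun v => a (2, v) ^ 2) = h.map fun v => (4 * v + 1) ^ 2 := by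
      refine Multiset.map_congr rfl fun v _ => ?_
      show (2 ^ 2 * v + 1) ^ 2 = (4 * v + 1) ^ 2
      ring
    have e1 : (l.map fun v => a (1, v) ^ 2) = l.map fun v => (2 * v + 1) ^ 2 := by
      refine Multiset.map_congr rfl fun v _ => ?_
      show (2 ^ 1 * v + 1) ^ 2 = (2 * v + 1) ^ 2
      ring
    have e0 : (P.map fun p => a (0, p.1) ^ 2) = P.map fun p => (p.1 + 1) ^ 2 := by
      refine Multiset.map_congr rfl fun v _ => ?_
      show (2 ^ 0 * v.1 + 1) ^ 2 = (v.1 + 1) ^ 2
      ring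
    simp only at e2 e1 e0 ⊢
    rw [e2, e1, e0, sum_h, sum_l]
    have h3 := sum_P P fun p hp => ⟨(hP p hp).1, (hP p hp).2.1⟩
    have h4 := two_card h fun v hv => (hh v hv).1
    have h5 := two_card l fun v hv => (hl v hv).1
    have hq : qs h l P = 16 * (h.map fun v => v ^ 2).sum + 4 * (l.map fun v => v ^ 2).sum +
      (P.map fun p => p.2 ^ 2).sum := rfl
    have hms : ms h l P = 16 * h.sum + 4 * l.sum + (P.map fun p => p.2).sum := rfl
    have hPs' : 400 * (P.map fun p => p.2).sum ≤ M := hPs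
    rw [hQ, hq]
    omega
  · -- binomials
    rw [hTm ℕ (fun p => (p.2 + 1).choose 2), Multiset.sum_add, Multiset.sum_add]
    have h2 := bin_h h
    have h1 := bin_l l
    have hb : bs h l P = 16 * (h.map fun v => (v + 1).choose 2).sum +
      4 * (l.map fun v => (v + 1).choose 2).sum +
      (P.map fun p => (p.2 + 1).choose 2).sum := rfl
    rw [hb] at hN
    simp only
    linarith

end Pool.Agent.Helper97.UC.RG3
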