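import Pool.Agent.Helper27.UC.Goals8

/-!
PROJECT UC: packet HES (helper97).
-/

set_option autoImplicit false

noncomputable section

namespace Pool.Agent.Helper97.UC.HES

open Module Pool.Agent.Helper27.UC

/-- the sum of the squares against the sum -/
theorem sq_le (c r : ℕ) (L : Multiset ℕ) (hL : ∀ y ∈ L, 100 * c * y ≤ r) :
    100 * c * (L.map fun v => v ^ 2).sum ≤ r * L.sum := by
  induction L using Multiset.induction_on with
  | empty => simp
  | cons a s ih =>
    simp only [Multiset.map_cons, Multiset.sum_cons]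
    have h1 := ih fun p hp => hL p (Multiset.mem_cons_of_mem hp)
    have h2 := hL a (Multiset.mem_cons_self a s)
    have h3 : 100 * c * a ^ 2 ≤ r * a := by
      calc 100 * c * a ^ 2 = 100 * c * a * a := by ring
        _ ≤ r * a := Nat.mul_le_mul_right _ h2
    calc 100 * c * (a ^ 2 + (s.map fun v => v ^ 2).sum)
        = 100 * c * a ^ 2 + 100 * c * (s.map fun v => v ^ 2).sum := by ring
      _ ≤ r * a + r * s.sum := Nat.add_le_add h3 h1
      _ = r * (a + s.sum) := by ring

theorem t : S_HES := by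
  classical
  intro c Q M g h l P hHF hg hcnt
  obtain ⟨hc, hQ, hM, hgg, hP, hgc, hPc, hM0, hPs, hPd⟩ := hHF
  have hmh : ∀ v ∈ h, v ∈ g := by
    intro v hv
    rw [hg, Multiset.mem_add]
    exact Or.inl (Multiset.mem_nsmul.2 ⟨by norm_num, hv⟩)
  have hml : ∀ v ∈ l, v ∈ g := by
    intro v hv
    rw [hg, Multiset.mem_add]
    exact Or.inr hv
  set r : ℕ := Nat.sqrt Q with hr
  have hr1 : r * r ≤ Q := Nat.sqrt_le Q
  have hr2 : Q < (r + 1) * (r + 1) := Nat.lt_succ_sqrt Q
  have hle : ∀ x : ℕ, x ^ 2 ≤ Q → x ≤ r := by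
    intro x hx
    rw [hr, Nat.le_sqrt]
    calc x * x = x ^ 2 := by ring
      _ ≤ Q := hx
  -- `M ≥ 100 c r`
  have hMr : 100 * c * r ≤ M := by
    have h1 := sq_le c r (4 • g + P.map Prod.snd) (fun y hy => by
      rw [Multiset.mem_add, Multiset.mem_nsmul] at hy
      rcases hy with ⟨-, hy⟩ | hy
      · exact hle _ (hgg y hy).2.1
      · rw [Multiset.mem_map] at hy
        obtain ⟨p, hp, rfl⟩ := hy
        obtain ⟨-, h2, h3, -⟩ := hP p hp
        exact (Nat.mul_le_mul_left _ h2).trans (hle _ h3))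
    rw [← hQ, ← hM] at h1
    rcases Nat.eq_zero_or_pos r with h0 | h0
    · rw [h0]; omega
    · refine Nat.le_of_mul_le_mul_left ?_ h0
      calc r * (100 * c * r) = 100 * c * (r * r) := by ring
        _ ≤ 100 * c * Q := Nat.mul_le_mul_left _ hr1
        _ ≤ r * M := h1
  have hsq : 200 ≤ r → 2 * Nat.sqrt (2 * Q) ≤ 3 * r := by
    intro h200
    have h1 : Nat.sqrt (2 * Q) * Nat.sqrt (2 * Q) ≤ 2 * Q := Nat.sqrt_le _
    by_contra hcon
    push Not at hcon
    have h2 : (3 * r) * (3 * r) < (2 * Nat.sqrt (2 * Q)) * (2 * Nat.sqrt (2 * Q)) :=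
      Nat.mul_self_lt_mul_self hcon
    nlinarith
  have hr200 : ∀ v ∈ g, 200 ≤ r := by
    intro v hv
    obtain ⟨h1, h2, -⟩ := hgg v hv
    refine le_trans ?_ (hle _ h2)
    have : 100 * 1 * 2 ≤ 100 * c * v := Nat.mul_le_mul (Nat.mul_le_mul_left _ hc) h1
    omega
  -- the bound of the count of `l`
  have hlb : ∀ v ∈ g, 400 * c * (v * l.count v) ≤ 47 * r := by
    intro v hv
    obtain ⟨h1, h2, -⟩ := hgg v hv
    have h3 := (hcnt v hv).2
    have h4 := hsq (hr200 v hv)
    have h5 : 100 * c * v ≤ r := hle _ h2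
    set A := Nat.sqrt (2 * Q) / (40 * c * v) with hA
    have h6 : 40 * c * v * A ≤ Nat.sqrt (2 * Q) := Nat.mul_div_le _ _
    calc 400 * c * (v * l.count v) ≤ 400 * c * (v * (A + 8)) :=
          Nat.mul_le_mul_left _ (Nat.mul_le_mul_left _ h3)
      _ = 10 * (40 * c * v * A) + 32 * (100 * c * v) := by ring
      _ ≤ 47 * r := by omega
  refine ⟨hc, ?_, ?_, ?_, ?_, hP, ?_, ?_, hPc, hM0, ?_, hPs, hPd⟩
  · rw [hQ, hg]
    unfold qs
    simp only [Multiset.map_add, Multiset.sum_add, Multiset.map_nsmul, Multiset.sum_nsmul,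
      smul_eq_mul, Multiset.map_map, smul_add, smul_smul, Function.comp_def]
    ring
  · rw [hM, hg]
    unfold ms
    simp only [Multiset.sum_add, Multiset.sum_nsmul, smul_eq_mul, smul_add, smul_smul]
    have e : (P.map Prod.snd).sum = (P.map fun p => p.2).sum := rfl
    rw [e]
    ring
  · intro v hv
    have hvg := hmh v hv
    obtain ⟨h1, h2, h3⟩ := hgg v hvg
    refine ⟨h1, h2, ?_⟩
    have hG : g.count v = 4 * h.count v + l.count v := by
      rw [hg, Multiset.count_add, Multiset.count_nsmul]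
    have h4 := hlb v hvg
    have h5 := hr200 v hvg
    have h6 : r ≤ 5 * c * (v * g.count v) := by
      have h7 : r ^ 2 ≤ (5 * c * (v * g.count v)) ^ 2 := by
        refine le_trans ?_ h3
        rw [sq]; exact hr1
      exact (Nat.pow_le_pow_iff_left (by norm_num)).1 h7
    rw [hG] at h6
    have h7 : 33 * r ≤ 20 * (20 * c * (4 * v * h.count v)) := by
      have e1 : 20 * (20 * c * (4 * v * h.count v)) + 400 * c * (v * l.count v) =
        80 * (5 * c * (v * (4 * h.count v + l.count v))) := by ring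
      omega
    set Z := 20 * c * (4 * v * h.count v) with hZ
    have h8 : (33 * r) * (33 * r) ≤ (20 * Z) * (20 * Z) := Nat.mul_self_le_mul_self h7
    nlinarith
  · intro v hv
    have hvg := hml v hv
    obtain ⟨h1, h2, h3⟩ := hgg v hvg
    refine ⟨h1, h2, ?_⟩
    have h4 := (hcnt v hvg).1
    have hpos : 0 < 40 * c * v := by positivity
    have h5 : Nat.sqrt (2 * Q) + 1 ≤ 40 * c * v * (Nat.sqrt (2 * Q) / (40 * c * v) + 1) :=
      Nat.lt_mul_div_succ _ hpos
    have h6 : Nat.sqrt (2 * Q) + 1 ≤ 20 * c * (2 * v * l.count v) := by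
      refine h5.trans ?_
      calc 40 * c * v * (Nat.sqrt (2 * Q) / (40 * c * v) + 1) ≤ 40 * c * v * l.count v :=
            Nat.mul_le_mul_left _ h4
        _ = 20 * c * (2 * v * l.count v) := by ring
    have h7 : 2 * Q < (Nat.sqrt (2 * Q) + 1) * (Nat.sqrt (2 * Q) + 1) := Nat.lt_succ_sqrt _
    have h8 := Nat.mul_self_le_mul_self h6
    rw [sq]
    omega
  · refine le_trans (Finset.card_le_card ?_) hgc
    intro v hv
    rw [Multiset.mem_toFinset] at hv ⊢
    exact hmh v hv
  · refine le_trans (Finset.card_le_card ?_) hgc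
    intro v hv
    rw [Multiset.mem_toFinset] at hv ⊢
    exact hml v hv
  · -- `400 l.sum ≤ M`
    have h1 : 400 * c * l.sum ≤ 47 * r * c ^ 2 := by
      have h2 : l.sum = ∑ v ∈ l.toFinset, v * l.count v := by
        have h3 := Finset.sum_multiset_map_count l (fun v : ℕ => v)
        rw [Multiset.map_id'] at h3
        rw [h3]
        refine Finset.sum_congr rfl fun v _ => ?_
        rw [smul_eq_mul, mul_comm]
      rw [h2, Finset.mul_sum]
      calc ∑ v ∈ l.toFinset, 400 * c * (v * l.count v) ≤ ∑ v ∈ l.toFinset, 47 * r :=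
            Finset.sum_le_sum fun v hv => hlb v (hml v (Multiset.mem_toFinset.1 hv))
        _ = l.toFinset.card * (47 * r) := by rw [Finset.sum_const, smul_eq_mul]
        _ ≤ c ^ 2 * (47 * r) := by
            refine Nat.mul_le_mul_right _ (le_trans (Finset.card_le_card ?_) hgc)
            intro v hv
            rw [Multiset.mem_toFinset] at hv ⊢
            exact hml v hv
        _ = 47 * r * c ^ 2 := by ring
    have h2 : 400 * l.sum ≤ 47 * r * c := by
      refine Nat.le_of_mul_le_mul_left ?_ (show 0 < c by omega)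
      calc c * (400 * l.sum) = 400 * c * l.sum := by ring
        _ ≤ 47 * r * c ^ 2 := h1
        _ = c * (47 * r * c) := by ring
    refine h2.trans (le_trans ?_ hMr)
    calc 47 * r * c = 47 * (c * r) := by ring
      _ ≤ 100 * (c * r) := Nat.mul_le_mul_right _ (by norm_num)
      _ = 100 * c * r := by ring

end Pool.Agent.Helper97.UC.HES
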