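import Pool.Agent.Helper27.UC.Goals7

/-!
PROJECT UC: packet RG2, the regular side for repeated multiplicities (helper97).
-/

set_option autoImplicit false

noncomputable section

namespace Pool.Agent.Helper97.UC.RG2

open Module Pool.Agent.Helper27.UC

/-- arithmetic of the degree -/
theorem ari (K n m d Q M : ℕ) (hK : 1 ≤ K) (hn : 10 ^ 8 * K ^ 4 ≤ n) (hm : n ≤ m)
    (hQ1 : n * m ^ 2 ≤ K ^ 2 * Q) (hQ2 : Q ≤ n * m ^ 2) (hM2 : M ≤ n * m)
    (hd1 : d * (d + 1) < Q + M) (hd2 : Q + M ≤ (d + 2) * (d + 3)) :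
    3 ≤ Nat.sqrt n / (5 * K) ∧ Nat.sqrt n / (5 * K) * (4 * m + 1) < d + 3 ∧
    (∀ N a : ℕ, 30 * K ^ 2 ≤ N → m ≤ K * a → d + 3 ≤ Nat.sqrt n / (5 * K) * (N * a)) ∧
    (∀ r : ℕ, 225 * K ^ 2 * (2 * r) ≤ n →
      2 * r ≤ (Nat.sqrt n / (5 * K) - 1) * (Nat.sqrt n / (5 * K) - 2)) ∧ Q + M < (d + 3) ^ 2 := by
  set k : ℕ := Nat.sqrt n / (5 * K) with hk
  set S : ℝ := Real.sqrt n with hS
  have hK' : (1 : ℝ) ≤ K := by exact_mod_cast hK
  have hK0 : (0 : ℝ) < K := by linarith
  have hn' : (10 : ℝ) ^ 8 * (K : ℝ) ^ 4 ≤ n := by exact_mod_cast hn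
  have hSS : S * S = n := Real.mul_self_sqrt (by positivity)
  have hS5 : (10 : ℝ) ^ 4 * (K : ℝ) ^ 2 ≤ S := by
    rw [hS]
    apply Real.le_sqrt_of_sq_le
    have e : ((10 : ℝ) ^ 4 * (K : ℝ) ^ 2) ^ 2 = (10 : ℝ) ^ 8 * (K : ℝ) ^ 4 := by ring
    rw [e]
    exact hn'
  have h104 : (10 : ℝ) ^ 4 = 10000 := by norm_num
  rw [h104] at hS5
  have hKK : (K : ℝ) ≤ (K : ℝ) ^ 2 := by nlinarith
  have hS6 : 10000 * (K : ℝ) ≤ S := by nlinarith
  have hS7 : (10000 : ℝ) ≤ S := by nlinarith
  have hS0 : 0 < S := by linarith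
  have hsn1 : ((Nat.sqrt n : ℕ) : ℝ) ≤ S := by
    rw [hS]
    exact Real.nat_sqrt_le_real_sqrt
  have hsn2 : S < (Nat.sqrt n : ℕ) + 1 := by
    rw [hS]
    exact Real.real_sqrt_lt_nat_sqrt_succ
  have hk1 : 5 * K * k ≤ Nat.sqrt n := Nat.mul_div_le _ _
  have hk2 : Nat.sqrt n + 1 ≤ 5 * K * (k + 1) := Nat.lt_mul_div_succ _ (by omega)
  have hk1' : 5 * (K : ℝ) * k ≤ (Nat.sqrt n : ℕ) := by exact_mod_cast hk1
  have hk2' : ((Nat.sqrt n : ℕ) : ℝ) + 1 ≤ 5 * K * (k + 1) := by exact_mod_cast hk2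
  have hkS : 5 * (K : ℝ) * k ≤ S := hk1'.trans hsn1
  have hkS' : S ≤ 5 * (K : ℝ) * (k + 1) := by linarith
  have hk0 : (0 : ℝ) ≤ k := by positivity
  -- `k ≥ 1000`
  have hk3 : (1000 : ℝ) ≤ k := by
    by_contra hcon
    push Not at hcon
    have : 5 * (K : ℝ) * (k + 1) ≤ 5 * K * 1001 := by
      apply mul_le_mul_of_nonneg_left _ (by positivity)
      linarith
    nlinarith
  have hk3' : 1000 ≤ k := by exact_mod_cast hk3
  have hk6 : S ≤ 6 * (K : ℝ) * k := by nlinarith
  have hm' : (n : ℝ) ≤ m := by exact_mod_cast hm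
  have hn1 : (10000 : ℝ) ≤ n := by nlinarith
  have hm1 : (1 : ℝ) ≤ m := by linarith
  have hQ1' : (n : ℝ) * (m : ℝ) ^ 2 ≤ K ^ 2 * Q := by exact_mod_cast hQ1
  have hQ2' : (Q : ℝ) ≤ n * (m : ℝ) ^ 2 := by exact_mod_cast hQ2
  have hM2' : (M : ℝ) ≤ n * (m : ℝ) := by exact_mod_cast hM2
  have hM0 : (0 : ℝ) ≤ M := by positivity
  have hd1' : (d : ℝ) * (d + 1) < Q + M := by exact_mod_cast hd1
  have hd2' : (Q : ℝ) + M ≤ (d + 2) * (d + 3) := by exact_mod_cast hd2
  have hd0 : (0 : ℝ) ≤ d := by positivity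
  have hlt : (Q : ℝ) + M < ((d : ℝ) + 3) ^ 2 := by nlinarith
  -- lower bound of d
  have hlow : S * m < K * (d + 3) := by
    have h1 : (S * m) ^ 2 < ((K : ℝ) * (d + 3)) ^ 2 := by
      calc (S * m) ^ 2 = (S * S) * (m : ℝ) ^ 2 := by ring
        _ = n * (m : ℝ) ^ 2 := by rw [hSS]
        _ ≤ K ^ 2 * Q := hQ1'
        _ ≤ K ^ 2 * (Q + M) := mul_le_mul_of_nonneg_left (by linarith) (by positivity)
        _ < K ^ 2 * ((d : ℝ) + 3) ^ 2 := mul_lt_mul_of_pos_left hlt (by positivity)
        _ = ((K : ℝ) * (d + 3)) ^ 2 := by ring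
    exact lt_of_pow_lt_pow_left₀ 2 (by positivity) h1
  -- upper bound of d
  have hup : (d : ℝ) ≤ 3 / 2 * (S * m) := by
    have h1 : (d : ℝ) ^ 2 ≤ (3 / 2 * (S * m)) ^ 2 := by
      have h2 : (3 / 2 * (S * (m : ℝ))) ^ 2 = 9 / 4 * ((S * S) * (m : ℝ) ^ 2) := by ring
      rw [h2, hSS]
      have h3 : (n : ℝ) * m ≤ n * (m : ℝ) ^ 2 := by
        apply mul_le_mul_of_nonneg_left _ (by positivity)
        nlinarith
      nlinarith
    exact le_of_sq_le_sq h1 (by positivity)
  refine ⟨by omega, ?_, ?_, ?_, ?_⟩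
  · have h1 : (k : ℝ) * (4 * m + 1) < d + 3 := by
      have h2 : (K : ℝ) * (k * (4 * m + 1)) ≤ S * m := by
        calc (K : ℝ) * (k * (4 * m + 1)) ≤ K * (k * (5 * m)) := by
              apply mul_le_mul_of_nonneg_left _ hK0.le
              apply mul_le_mul_of_nonneg_left _ hk0
              linarith
          _ = (5 * (K : ℝ) * k) * m := by ring
          _ ≤ S * m := mul_le_mul_of_nonneg_right hkS (by positivity)
      have h3 : (K : ℝ) * (k * (4 * m + 1)) < K * (d + 3) := lt_of_le_of_lt h2 hlow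
      exact lt_of_mul_lt_mul_left h3 hK0.le
    exact_mod_cast h1
  · intro N a hN ha
    have hN' : 30 * (K : ℝ) ^ 2 ≤ N := by exact_mod_cast hN
    have ha' : (m : ℝ) ≤ K * a := by exact_mod_cast ha
    have h1 : (d : ℝ) + 3 ≤ k * (N * a) := by
      have h2 : 5 * (S * m) ≤ k * (N * a) := by
        calc 5 * (S * (m : ℝ)) ≤ 5 * ((6 * (K : ℝ) * k) * (K * a)) := by
              apply mul_le_mul_of_nonneg_left _ (by norm_num)
              exact mul_le_mul hk6 ha' (by positivity) (by positivity)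
          _ = k * ((30 * (K : ℝ) ^ 2) * a) := by ring
          _ ≤ k * (N * a) := by
              apply mul_le_mul_of_nonneg_left _ hk0
              exact mul_le_mul_of_nonneg_right hN' (by positivity)
      have h3 : (10000 : ℝ) ≤ S * m := by nlinarith
      linarith
    exact_mod_cast h1
  · intro r hr
    have hr' : 225 * (K : ℝ) ^ 2 * (2 * r) ≤ n := by exact_mod_cast hr
    have h7 : (2 : ℝ) * r ≤ ((k : ℝ) - 1) * (k - 2) := by
      have h8 : (n : ℝ) ≤ 36 * (K : ℝ) ^ 2 * (k : ℝ) ^ 2 := by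
        rw [← hSS]
        calc S * S ≤ (6 * (K : ℝ) * k) * (6 * (K : ℝ) * k) :=
              mul_le_mul hk6 hk6 hS0.le (by positivity)
          _ = 36 * (K : ℝ) ^ 2 * (k : ℝ) ^ 2 := by ring
      have h9 : (K : ℝ) ^ 2 * (225 * (2 * r)) ≤ (K : ℝ) ^ 2 * (36 * (k : ℝ) ^ 2) := by linarith
      have h10 : 225 * (2 * (r : ℝ)) ≤ 36 * (k : ℝ) ^ 2 := le_of_mul_le_mul_left h9 (by positivity)
      nlinarith
    have h10 : ((2 * r : ℕ) : ℝ) ≤ (((k - 1) * (k - 2) : ℕ) : ℝ) := by
      rw [Nat.cast_mul, Nat.cast_mul, Nat.cast_sub (by omega), Nat.cast_sub (by omega)]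
      push_cast
      exact h7
    exact_mod_cast h10
  · exact_mod_cast hlt

theorem ch1 (v : ℕ) : (4 * v + 1).choose 2 + 6 * v = 16 * (v + 1).choose 2 := by
  have h1 := Nat.choose_two_right (4 * v + 1)
  have h2 := Nat.choose_two_right (v + 1)
  have h3 : (4 * v + 1) * (4 * v + 1 - 1) = 2 * (8 * v ^ 2 + 2 * v) := by
    rw [Nat.add_sub_cancel]; ring
  rw [h3, Nat.mul_div_cancel_left _ (by norm_num)] at h1
  rw [Nat.add_sub_cancel] at h2
  have h4 : 2 ∣ (v + 1) * v := by
    rw [mul_comm]; exact (Nat.even_mul_succ_self v).two_dvd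
  obtain ⟨w, hw⟩ := h4
  rw [hw, Nat.mul_div_cancel_left _ (by norm_num)] at h2
  rw [h1, h2]
  nlinarith

theorem ch2 (v : ℕ) : (2 * v + 1).choose 2 + v = 4 * (v + 1).choose 2 := by
  have h1 := Nat.choose_two_right (2 * v + 1)
  have h2 := Nat.choose_two_right (v + 1)
  have h3 : (2 * v + 1) * (2 * v + 1 - 1) = 2 * (2 * v ^ 2 + v) := by
    rw [Nat.add_sub_cancel]; ring
  rw [h3, Nat.mul_div_cancel_left _ (by norm_num)] at h1
  rw [Nat.add_sub_cancel] at h2
  have h4 : 2 ∣ (v + 1) * v := by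
    rw [mul_comm]; exact (Nat.even_mul_succ_self v).two_dvd
  obtain ⟨w, hw⟩ := h4
  rw [hw, Nat.mul_div_cancel_left _ (by norm_num)] at h2
  rw [h1, h2]
  nlinarith

/-- the sums over a multiset of naturals, by induction -/
theorem sum_h (h : Multiset ℕ) : (h.map fun v => (4 * v + 1) ^ 2).sum =
    16 * (h.map fun v => v ^ 2).sum + 8 * h.sum + Multiset.card h := by
  induction h using Multiset.induction_on with
  | empty => simp
  | cons a s ih =>
    simp only [Multiset.map_cons, Multiset.sum_cons, Multiset.card_cons]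
    rw [ih]
    ring

theorem sum_l (h : Multiset ℕ) : (h.map fun v => (2 * v + 1) ^ 2).sum =
    4 * (h.map fun v => v ^ 2).sum + 4 * h.sum + Multiset.card h := by
  induction h using Multiset.induction_on with
  | empty => simp
  | cons a s ih =>
    simp only [Multiset.map_cons, Multiset.sum_cons, Multiset.card_cons]
    rw [ih]
    ring

theorem sum_P (m : ℕ) (P : Multiset (ℕ × ℕ)) (hP : ∀ p ∈ P, p.2 ≤ p.1 ∧ p.1 ≤ m) :
    (P.map fun p => (p.1 + 1) ^ 2).sum ≤
    (P.map fun p => p.2 ^ 2).sum + 2 * m * (P.map fun p => p.1 - p.2).sum +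
      2 * m * Multiset.card P + Multiset.card P := by
  induction P using Multiset.induction_on with
  | empty => simp
  | cons a s ih =>
    simp only [Multiset.map_cons, Multiset.sum_cons, Multiset.card_cons]
    have h1 := ih fun p hp => hP p (Multiset.mem_cons_of_mem hp)
    have h2 := hP a (Multiset.mem_cons_self a s)
    obtain ⟨x, y⟩ := a
    simp only at h2 ⊢
    obtain ⟨h3, h4⟩ := h2
    obtain ⟨z, rfl⟩ := Nat.exists_eq_add_of_le h3
    have e : y + z - y = z := by omega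
    rw [e]
    have h5 : (y + z + 1) ^ 2 ≤ y ^ 2 + 2 * m * z + 2 * m + 1 := by nlinarith
    nlinarith

theorem bin_h (h : Multiset ℕ) : (h.map fun v => (4 * v + 1).choose 2).sum + 6 * h.sum =
    16 * (h.map fun v => (v + 1).choose 2).sum := by
  induction h using Multiset.induction_on with
  | empty => simp
  | cons a s ih =>
    simp only [Multiset.map_cons, Multiset.sum_cons]
    have := ch1 a
    linarith

theorem bin_l (h : Multiset ℕ) : (h.map fun v => (2 * v + 1).choose 2).sum + h.sum =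
    4 * (h.map fun v => (v + 1).choose 2).sum := by
  induction h using Multiset.induction_on with
  | empty => simp
  | cons a s ih =>
    simp only [Multiset.map_cons, Multiset.sum_cons]
    have := ch2 a
    linarith

/-- fibres -/
theorem fib {ι : Type} [DecidableEq ι] (T : Multiset (ι × ℕ)) (g : ι → ℕ) :
    ∑ i ∈ (T.map Prod.fst).toFinset, (T.map Prod.fst).count i * g i =
      (T.map fun p => g p.1).sum := by
  have h := Finset.sum_multiset_map_count (T.map Prod.fst) g
  rw [Multiset.map_map] at h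
  simp only [smul_eq_mul] at h
  exact h.symm

theorem cnt {ι : Type} [DecidableEq ι] (T : Multiset (ι × ℕ)) (i : ι) :
    Multiset.card (T.filter fun p => p.1 = i) = (T.map Prod.fst).count i := by
  rw [Multiset.count_map]
  congr 1
  exact Multiset.filter_congr fun x _ => eq_comm

theorem t (hR : S_RGG) (hB : S_HDB) : S_RG2 := by
  classical
  intro K n m d N h l P hHD hCR hN
  obtain ⟨b1, b2, b3, b4, b5, b6, b7, b8, b9, b10⟩ := hB K n m h l P hHD
  obtain ⟨hK, hn, hnm, hcard, hh, hl, hP, hlc, hPc, hPs⟩ := hHD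
  obtain ⟨hd1, hd2⟩ := hCR
  obtain ⟨hk3, hka, hkb, hkr, hlt⟩ := ari K n m d _ _ hK hn hnm b7 b8 b2 hd1 hd2
  set k : ℕ := Nat.sqrt n / (5 * K) with hk
  set f2 : ℕ → (ℕ × ℕ) × ℕ := fun v => ((2, v), 4 * v) with hf2
  set f1 : ℕ → (ℕ × ℕ) × ℕ := fun v => ((1, v), 2 * v) with hf1
  set f0 : ℕ × ℕ → (ℕ × ℕ) × ℕ := fun p => ((0, p.1), p.2) with hf0
  set T : Multiset ((ℕ × ℕ) × ℕ) := h.map f2 + l.map f1 + P.map f0 with hT
  set a : ℕ × ℕ → ℕ := fun i => 2 ^ i.1 * i.2 + 1 with ha
  have hTf : T.map Prod.fst = h.map (fun v => (2, v)) + l.map (fun v => (1, v)) +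
      P.map (fun p => (0, p.1)) := by
    rw [hT, Multiset.map_add, Multiset.map_add, Multiset.map_map, Multiset.map_map,
      Multiset.map_map]
    rfl
  have hTm : ∀ (β : Type) (g : (ℕ × ℕ) × ℕ → β), T.map g = h.map (fun v => g ((2, v), 4 * v)) +
      l.map (fun v => g ((1, v), 2 * v)) + P.map (fun p => g ((0, p.1), p.2)) := by
    intro β g
    rw [hT, Multiset.map_add, Multiset.map_add, Multiset.map_map, Multiset.map_map,
      Multiset.map_map]
    rfl
  -- the elements
  have hel : ∀ i ∈ T.map Prod.fst, m ≤ K * a i ∧ a i ≤ 4 * m + 1 ∧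
      30 * K ^ 2 ≤ (T.map Prod.fst).count i := by
    intro i hi
    rw [hTf, Multiset.mem_add, Multiset.mem_add, Multiset.mem_map, Multiset.mem_map,
      Multiset.mem_map] at hi
    rcases hi with (⟨v, hv, rfl⟩ | ⟨v, hv, rfl⟩) | ⟨p, hp, rfl⟩
    · obtain ⟨h1, h2, h3⟩ := hh v hv
      refine ⟨?_, ?_, ?_⟩
      · refine h2.trans (Nat.mul_le_mul_left _ ?_)
        show v ≤ 2 ^ 2 * v + 1
        omega
      · show 2 ^ 2 * v + 1 ≤ 4 * m + 1
        omega
      · rw [hTf, Multiset.count_add, Multiset.count_add]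
        have h4 : Multiset.count (2, v) (h.map fun v => (2, v)) = h.count v :=
          Multiset.count_map_eq_count' (fun v : ℕ => ((2 : ℕ), v)) h
            (fun x y hxy => (Prod.ext_iff.1 hxy).2) v
        omega
    · obtain ⟨h1, h2, h3⟩ := hl v hv
      refine ⟨?_, ?_, ?_⟩
      · refine h2.trans (Nat.mul_le_mul_left _ ?_)
        show v ≤ 2 ^ 1 * v + 1
        omega
      · show 2 ^ 1 * v + 1 ≤ 4 * m + 1
        omega
      · rw [hTf, Multiset.count_add, Multiset.count_add]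
        have h4 : Multiset.count (1, v) (l.map fun v => (1, v)) = l.count v :=
          Multiset.count_map_eq_count' (fun v : ℕ => ((1 : ℕ), v)) l
            (fun x y hxy => (Prod.ext_iff.1 hxy).2) v
        omega
    · obtain ⟨h1, h2, h3, h4⟩ := hP p hp
      refine ⟨?_, ?_, ?_⟩
      · refine h3.trans (Nat.mul_le_mul_left _ ?_)
        show p.2 ≤ 2 ^ 0 * p.1 + 1
        omega
      · show 2 ^ 0 * p.1 + 1 ≤ 4 * m + 1
        omega
      · rw [hTf, Multiset.count_add, Multiset.count_add]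
        have h5 : Multiset.count (0, p.1) (P.map fun p => (0, p.1)) = (P.map Prod.fst).count p.1 := by
          have h6 : (P.map fun p => ((0 : ℕ), p.1)) = (P.map Prod.fst).map (fun v => ((0 : ℕ), v)) := by
            rw [Multiset.map_map]
            rfl
          rw [h6]
          exact Multiset.count_map_eq_count' (fun v : ℕ => ((0 : ℕ), v)) (P.map Prod.fst)
            (fun x y hxy => (Prod.ext_iff.1 hxy).2) p.1
        omega
  have hTc : Multiset.card T = Multiset.card h + Multiset.card l + Multiset.card P := by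
    rw [hT, Multiset.card_add, Multiset.card_add, Multiset.card_map, Multiset.card_map,
      Multiset.card_map]
  have hn0 : 0 < n := by
    have : 0 < 10 ^ 8 * K ^ 4 := by positivity
    omega
  have hm0 : 0 < m := by omega
  have hh0 : h ≠ 0 := by
    rintro rfl
    simp only [Multiset.sum_zero, mul_zero] at b3
    have : 0 < n * m := Nat.mul_pos hn0 hm0
    omega
  -- the number of rows
  have hI : 30 * K ^ 2 * (T.map Prod.fst).toFinset.card ≤ Multiset.card T := by
    have h1 := Multiset.toFinset_sum_count_eq (T.map Prod.fst)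
    rw [Multiset.card_map] at h1
    rw [← h1]
    have h2 := Finset.card_nsmul_le_sum (T.map Prod.fst).toFinset
      (fun i => (T.map Prod.fst).count i) (30 * K ^ 2) (fun i hi => by
        rw [Multiset.mem_toFinset] at hi
        exact (hel i hi).2.2)
    rw [smul_eq_mul] at h2
    linarith
  have hc15 : 15 * Multiset.card T ≤ n := by
    rw [hTc]
    have h1 : 1000 * Multiset.card l ≤ n := by
      refine le_trans ?_ hlc
      have := Nat.mul_le_mul_right (Multiset.card l) (Nat.mul_le_mul_left 1000 hK)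
      omega
    have h2 : 1000 * Multiset.card P ≤ n := by
      refine le_trans ?_ hPc
      have := Nat.mul_le_mul_right (Multiset.card P) (Nat.mul_le_mul_left 1000 hK)
      omega
    omega
  have key := hR (ℕ × ℕ) d k (N + 6 * h.sum + l.sum) (T.map Prod.fst).toFinset a
    (fun i => (T.map Prod.fst).count i) T ?_ ?_ (fun i _ => cnt T i) hk3 ?_ ?_ ?_ ?_
  · rw [hTm ℕ Prod.snd] at key
    exact key
  · obtain ⟨v, hv⟩ := Multiset.exists_mem_of_ne_zero hh0
    refine ⟨(2, v), ?_⟩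
    rw [Multiset.mem_toFinset, hTf]
    simp [hv]
  · intro p hp
    refine ⟨by
      rw [Multiset.mem_toFinset]
      exact Multiset.mem_map_of_mem _ hp, ?_⟩
    rw [hT, Multiset.mem_add, Multiset.mem_add, Multiset.mem_map, Multiset.mem_map,
      Multiset.mem_map] at hp
    rcases hp with (⟨v, hv, rfl⟩ | ⟨v, hv, rfl⟩) | ⟨p, hp, rfl⟩
    · show 4 * v + 1 ≤ 2 ^ 2 * v + 1
      omega
    · show 2 * v + 1 ≤ 2 ^ 1 * v + 1
      omega
    · show p.2 + 1 ≤ 2 ^ 0 * p.1 + 1
      have := (hP p hp).1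
      omega
  · refine hkr _ ?_
    calc 225 * K ^ 2 * (2 * (T.map Prod.fst).toFinset.card)
        = 15 * (30 * K ^ 2 * (T.map Prod.fst).toFinset.card) := by ring
      _ ≤ 15 * Multiset.card T := Nat.mul_le_mul_left _ hI
      _ ≤ n := hc15
  · intro i hi
    rw [Multiset.mem_toFinset] at hi
    obtain ⟨h1, h2, h3⟩ := hel i hi
    refine ⟨Nat.succ_pos _, ?_, ?_, hkb _ _ h3 h1⟩
    · have : 0 < 30 * K ^ 2 := by positivity
      show 1 ≤ (T.map Prod.fst).count i
      omega
    · exact lt_of_le_of_lt (Nat.mul_le_mul_left _ h2) hka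
  · -- squares
    have h1 := fib T (fun i => a i ^ 2)
    refine lt_of_le_of_lt (le_of_eq h1) ?_
    refine lt_of_le_of_lt ?_ hlt
    rw [hTm ℕ (fun p => a p.1 ^ 2), Multiset.sum_add, Multiset.sum_add]
    have e2 : (h.map fun v => a (2, v) ^ 2) = h.map fun v => (4 * v + 1) ^ 2 := by
      refine Multiset.map_congr rfl fun v _ => ?_
      show (2 ^ 2 * v + 1) ^ 2 = (4 * v + 1) ^ 2
      ring
    have e1 : (l.map fun v => a (1, v) ^ 2) = l.map fun v => (2 * v + 1) ^ 2 := by
      refine Multiset.map_congr rfl fun v _ => ?_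
      show (2 ^ 1 * v + 1) ^ 2 = (2 * v + 1) ^ 2
      ring
    have e0 : (P.map fun p => a (0, p.1) ^ 2) = P.map fun p => (p.1 + 1) ^ 2 := by
      refine Multiset.map_congr rfl fun v _ => ?_
      show (2 ^ 0 * v.1 + 1) ^ 2 = (v.1 + 1) ^ 2
      ring
    simp only at e2 e1 e0 ⊢
    rw [e2, e1, e0, sum_h, sum_l]
    have h3 := sum_P m P fun p hp => ⟨(hP p hp).1, (hP p hp).2.1⟩
    set X := (P.map fun p => p.1 - p.2).sum with hX
    set Y := (P.map fun p => (p.1 + 1) ^ 2).sum with hY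
    have h4 : 2 * m * X + 2 * m * Multiset.card P + Multiset.card h + Multiset.card l +
        Multiset.card P ≤ 8 * h.sum := by
      have g1 : 1000 * K * X * m ≤ n * m := Nat.mul_le_mul_right _ hPs
      have g2 : 1000 * K * Multiset.card P * m ≤ n * m := Nat.mul_le_mul_right _ hPc
      have g3 : Multiset.card h + Multiset.card l + Multiset.card P ≤ n := by omega
      have g4 : 1000 * K * (K * n) ≤ n * m := b9
      have g5 : 1000 * (K * n) ≤ 1000 * K * (K * n) := by
        have := Nat.mul_le_mul_left 1000 hK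
        calc 1000 * (K * n) = 1000 * 1 * (K * n) := by ring
          _ ≤ 1000 * K * (K * n) := Nat.mul_le_mul_right _ this
      -- multiply the claim by `1000 * 17 * K`
      have hK0 : 0 < 17000 * K := by omega
      refine Nat.le_of_mul_le_mul_left ?_ hK0
      nlinarith
    have hq : qs h l P = 16 * (h.map fun v => v ^ 2).sum + 4 * (l.map fun v => v ^ 2).sum +
      (P.map fun p => p.2 ^ 2).sum := rfl
    have hms : ms h l P = 16 * h.sum + 4 * l.sum + (P.map fun p => p.2).sum := rfl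
    rw [hq, hms]
    generalize 2 * m * X = A1 at h3 h4
    generalize 2 * m * Multiset.card P = A2 at h3 h4
    omega
  · -- binomials
    rw [hTm ℕ (fun p => (p.2 + 1).choose 2), Multiset.sum_add, Multiset.sum_add]
    have h2 := bin_h h
    have h1 := bin_l l
    have hb : bs h l P = 16 * (h.map fun v => (v + 1).choose 2).sum +
      4 * (l.map fun v => (v + 1).choose 2).sum +
      (P.map fun p => (p.2 + 1).choose 2).sum := rfl
    rw [hb] at hN
    simp only
    linarith

end Pool.Agent.Helper97.UC.RG2
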